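import Pool.Agent.X272.Alt.Check

namespace Pool.Agent.X272.Alt

section
variable {R : Type*} [NonUnitalNonAssocRing R]

/-- the torsion element at six elements of a ring -/
def tv (A B C D E F : R) : R := (tgt.map fun p => p.2 • sy A B C D E F (dec p.1)).sum

theorem ok_sum (hR : IsAlt R) (A B C D E F : R) (x : ℕ) (hx : ok x = true) :
    ((pairs x).map fun p => p.2 • sy A B C D E F (dec p.1)).sum = 0 := by
  unfold ok at hx
  split at hx
  · rename_i x0 x1 x2 x3 hi
    simp only [Bool.and_eq_true] at hx
    obtain ⟨⟨h0, h1⟩, h2, h3⟩ := hx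
    have h0 := Tr.beq_eq _ _ h0
    have h1 := Tr.beq_eq _ _ h1
    have h2 := Tr.beq_eq _ _ h2
    have h3 := Tr.beq_eq _ _ h3
    have hs := sy_inst hR A B C D E F _ _ _ _ _ _ _ hi
    simp only [pairs, List.map_cons, List.map_nil, List.sum_cons, List.sum_nil, ← sy_act]
    rw [← h0, ← h1, ← h2, ← h3]
    have e : fcoef x • (sy A B C D E F x0 - sy A B C D E F x1
        + (sy A B C D E F x2 - sy A B C D E F x3)) = 0 := by rw [hs, smul_zero]
    simp only [smul_add, smul_sub] at e
    refine Eq.trans ?_ e
    simp only [neg_smul, add_zero]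
    abel
  · simp at hx
end

theorem chZ_sum (l : List ℕ) (F : ℕ × ℤ → ℤ) :
    ((l.flatMap pairs).map F).sum = chZ (fun x => ((pairs x).map F).sum) l := by
  induction l with
  | nil => simp [chZ]
  | cons x l ih => simp only [List.flatMap_cons, List.map_append, List.sum_append, chZ, ih]

theorem chZZ_sum (l : List (List ℕ)) (F : ℕ × ℤ → ℤ) :
    ((l.flatten.flatMap pairs).map F).sum = chZZ (fun x => ((pairs x).map F).sum) l := by
  induction l with
  | nil => simp [chZZ]
  | cons x l ih =>
    simp only [List.flatten_cons, List.flatMap_append, List.map_append, List.sum_append, chZZ,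
      ih, chZ_sum]

theorem chZZ_congr (l : List (List ℕ)) (F G : ℕ → ℤ) (h : ∀ x, F x = G x) :
    chZZ F l = chZZ G l := by
  have : F = G := funext h
  rw [this]

theorem allC_mem (F : ℕ → Bool) (l : List ℕ) (h : allC F l = true) : ∀ x ∈ l, F x = true := by
  induction l with
  | nil => simp
  | cons y l ih =>
    simp only [allC, Bool.and_eq_true] at h
    intro x hx
    rcases List.mem_cons.mp hx with rfl | hx
    · exact h.1
    · exact ih h.2 x hx

theorem allCC_mem (F : ℕ → Bool) (l : List (List ℕ)) (h : allCC F l = true) :
    ∀ x ∈ l.flatten, F x = true := by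
  induction l with
  | nil => simp
  | cons y l ih =>
    simp only [allCC, Bool.and_eq_true] at h
    intro x hx
    rw [List.flatten_cons] at hx
    rcases List.mem_append.mp hx with hx | hx
    · exact allC_mem F y h.1 x hx
    · exact ih h.2 x hx

theorem pw_eq (k : ℕ) : pw k = (16777216 : ℤ) ^ k := by
  unfold pw
  have : Nat.pow 2 (24 * k) = 16777216 ^ k := by
    change 2 ^ (24 * k) = 16777216 ^ k
    rw [pow_mul]; norm_num
  rw [this]
  simp

theorem abs_sgb (x : ℤ) (b : Bool) : |sgb x b| = |x| := by
  cases b <;> simp [sgb]

theorem abs_sgz (g : ℕ) (x : ℤ) : |sgz g x| = |x| := by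
  simp only [sgz, abs_sgb]

theorem abs_fcoef (x : ℕ) : |fcoef x| = ((x / 256 % 4096 : ℕ) : ℤ) := by
  rw [fcoef, abs_sgb]
  exact abs_of_nonneg (by positivity)

theorem tgtval_eq (l : List (ℕ × ℤ)) :
    tgtval l = ((l.map fun p => (p.1, -3 * p.2)).map fun p => p.2 * (16777216 : ℤ) ^ p.1).sum := by
  induction l with
  | nil => simp [tgtval]
  | cons p l ih => simp only [tgtval, List.map_cons, List.sum_cons, ih, pw_eq]

theorem tors {R : Type*} [NonUnitalNonAssocRing R] (hR : IsAlt R) (A B C D E F : R) :
    (3 : ℤ) • tv A B C D E F = 0 := by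
  set g : ℕ → R := fun k => sy A B C D E F (dec k) with hg
  set T : List (ℕ × ℤ) := tgt.map fun p => (p.1, -3 * p.2) with hT
  have hz : (((data.flatten.flatMap pairs) ++ T).map fun p => p.2 • g p.1).sum = 0 := by
    refine list_zero g 16777216 2048 _ ?_ ?_ ?_
    · intro p hp
      rcases List.mem_append.mp hp with hp | hp
      · obtain ⟨x, -, hx⟩ := List.mem_flatMap.mp hp
        simp only [pairs, List.mem_cons, List.not_mem_nil, or_false] at hx
        rcases hx with rfl | rfl | rfl | rfl
        · exact Nat.mod_lt _ (by norm_num)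
        · exact Nat.mod_lt _ (by norm_num)
        · exact Nat.mod_lt _ (by norm_num)
        · exact Nat.mod_lt _ (by norm_num)
      · have : ∀ q ∈ T, q.1 < 2048 := by rw [hT]; decide
        exact this p hp
    · have e1 : absum ((data.flatten.flatMap pairs) ++ T)
          = chZZ (fun x => ((pairs x).map fun p => |p.2|).sum) data + absum T := by
        rw [absum, List.map_append, List.sum_append, chZZ_sum]; rfl
      rw [e1, chZZ_congr data _ (fun e => Int.ofNat (4 * (e / 256 % 4096)))]
      · have h1 := abs_small
        have h2 : absum T < 777216 := by rw [hT]; decide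
        linarith
      · intro x
        simp only [pairs, List.map_cons, List.map_nil, List.sum_cons, List.sum_nil, abs_sgz,
          abs_neg, abs_fcoef]
        rw [Int.ofNat_eq_natCast]
        push_cast
        ring
    · rw [List.map_append, List.sum_append, chZZ_sum]
      have e3 : chZZ (fun x => ((pairs x).map fun p => p.2 * (16777216 : ℤ) ^ p.1).sum) data
          = chZZ val data := by
        refine chZZ_congr data _ _ fun x => ?_
        simp only [pairs, List.map_cons, List.map_nil, List.sum_cons, List.sum_nil, val, pw_eq]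
        ring
      rw [e3]
      have e4 := tgtval_eq tgt
      rw [hT, ← e4]
      exact val_zero
  rw [List.map_append, List.sum_append] at hz
  have h1 : ((data.flatten.flatMap pairs).map fun p => p.2 • g p.1).sum = 0 := by
    have hall := allCC_mem ok data ok_all
    have : ∀ l : List ℕ, (∀ x ∈ l, ok x = true) →
        ((l.flatMap pairs).map fun p => p.2 • g p.1).sum = 0 := by
      intro l
      induction l with
      | nil => simp
      | cons x l ih =>
        intro h
        rw [List.flatMap_cons, List.map_append, List.sum_append,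
          ok_sum hR A B C D E F x (h x List.mem_cons_self),
          ih (fun y hy => h y (List.mem_cons_of_mem _ hy)), add_zero]
    exact this _ hall
  rw [h1, zero_add] at hz
  have h2 : (T.map fun p => p.2 • g p.1).sum = -((3 : ℤ) • tv A B C D E F) := by
    rw [hT, tv]
    generalize tgt = l
    induction l with
    | nil => simp
    | cons p l ih =>
      simp only [List.map_cons, List.sum_cons, smul_add, neg_add, ih]
      rw [mul_smul, neg_smul]
  rw [h2, neg_eq_zero] at hz
  exact hz

end Pool.Agent.X272.Alt
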