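import Pool.Agent.X272.Alt.Prod
import Pool.Agent.X272.Alt.Tors

namespace Pool.Agent.X272.Alt

theorem P_nil (i j : ℕ) (h : ¬ (good i = true ∧ good j = true ∧ disj i j = true)) :
    P i j = [] := by
  unfold P
  cases h1 : good i <;> cases h2 : good j <;> cases h3 : disj i j <;> simp_all

theorem lift_mask (w : ℕ) (l : List (ℕ × ℕ)) : ∀ p ∈ lift w l, p.1 / 8 = w := by
  induction l with
  | nil => simp [lift]
  | cons q l ih =>
    obtain ⟨k, c⟩ := q
    intro p hp
    simp only [lift, List.mem_cons] at hp
    rcases hp with rfl | hp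
    · simp only; omega
    · exact ih p hp

theorem P_mask (i j : ℕ) : ∀ p ∈ P i j, p.1 / 8 = (i / 8) ||| (j / 8) := by
  unfold P
  cases (good i && (good j && disj i j))
  · simp
  · simp only [cond_true]; exact lift_mask _ _

theorem disj_iff (i j : ℕ) : disj i j = true ↔ (i / 8) &&& (j / 8) = 0 := by
  unfold disj
  rw [Nat.beq_eq]
  rfl

theorem and_or_zero (x y z : ℕ) : (x ||| y) &&& z = 0 ↔ x &&& z = 0 ∧ y &&& z = 0 := by
  rw [Nat.and_or_distrib_right, Nat.or_eq_zero_iff]

/-- the hypothesis that a triple is relevant -/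
def rel (i j k : ℕ) : Prop :=
  good i = true ∧ good j = true ∧ good k = true ∧ (i / 8) &&& (j / 8) = 0 ∧
    (i / 8) &&& (k / 8) = 0 ∧ (j / 8) &&& (k / 8) = 0

theorem rmul_nil (l : List (ℕ × ℕ)) (k : ℕ) (h : ∀ p ∈ l, P p.1 k = []) : rmul l k = [] := by
  induction l with
  | nil => rfl
  | cons p l ih =>
    obtain ⟨i, c⟩ := p
    simp only [rmul]
    have h1 : P i k = [] := h (i, c) List.mem_cons_self
    rw [h1, ih (fun q hq => h q (List.mem_cons_of_mem _ hq))]
    rfl

theorem lmul_nil (l : List (ℕ × ℕ)) (k : ℕ) (h : ∀ p ∈ l, P k p.1 = []) : lmul k l = [] := by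
  induction l with
  | nil => rfl
  | cons p l ih =>
    obtain ⟨i, c⟩ := p
    simp only [lmul]
    have h1 : P k i = [] := h (i, c) List.mem_cons_self
    rw [h1, ih (fun q hq => h q (List.mem_cons_of_mem _ hq))]
    rfl

theorem rmul_rel (i j k : ℕ) (h : ¬ rel i j k) : rmul (P i j) k = [] := by
  by_cases h1 : good i = true ∧ good j = true ∧ disj i j = true
  · refine rmul_nil _ _ fun p hp => P_nil _ _ ?_
    rintro ⟨-, h3, h4⟩
    rw [disj_iff] at h4
    rw [P_mask i j p hp, and_or_zero] at h4
    exact h ⟨h1.1, h1.2.1, h3, (disj_iff _ _).mp h1.2.2, h4.1, h4.2⟩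
  · rw [P_nil i j h1]; rfl

theorem lmul_rel (i j k : ℕ) (h : ¬ rel i j k) : lmul i (P j k) = [] := by
  by_cases h1 : good j = true ∧ good k = true ∧ disj j k = true
  · refine lmul_nil _ _ fun p hp => P_nil _ _ ?_
    rintro ⟨h3, -, h4⟩
    rw [disj_iff] at h4
    rw [P_mask j k p hp, Nat.and_comm, and_or_zero, Nat.and_comm, Nat.and_comm (k / 8)] at h4
    exact h ⟨h3, h1.1, h1.2.1, h4.1, h4.2, (disj_iff _ _).mp h1.2.2⟩
  · rw [P_nil j k h1]; rfl

theorem rel_swap1 (i j k : ℕ) : rel i j k ↔ rel j i k := by
  unfold rel
  rw [Nat.and_comm (i / 8) (j / 8)]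
  tauto

theorem rel_swap2 (i j k : ℕ) : rel i j k ↔ rel i k j := by
  unfold rel
  rw [Nat.and_comm (j / 8) (k / 8)]
  tauto

theorem dm_lt (U r : ℕ) (h : r < dm U) : U < 64 := by
  unfold dm at h
  by_contra hU
  have : Nat.ble 64 U = true := Nat.ble_eq.mpr (by omega)
  rw [this] at h
  simp at h

theorem chk_of_rel (i j k : ℕ) (h : rel i j k) : chk i j k = true := by
  obtain ⟨h1, h2, h3, h4, h5, h6⟩ := h
  have g1 : i % 8 < dm (i / 8) := by simpa [good, Nat.blt_eq] using h1
  have g2 : j % 8 < dm (j / 8) := by simpa [good, Nat.blt_eq] using h2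
  have g3 : k % 8 < dm (k / 8) := by simpa [good, Nat.blt_eq] using h3
  have a1 := allLt_spec _ _ chkAll_true (i / 8) (dm_lt _ _ g1)
  have a2 := allLt_spec _ _ a1 (j / 8) (dm_lt _ _ g2)
  have e1 : Nat.beq (Nat.land (i / 8) (j / 8)) 0 = true := by rw [Nat.beq_eq]; exact h4
  simp only [e1, cond_true] at a2
  have a3 := allLt_spec _ _ a2 (k / 8) (dm_lt _ _ g3)
  have e2 : Nat.beq (Nat.land (Nat.lor (i / 8) (j / 8)) (k / 8)) 0 = true := by
    rw [Nat.beq_eq]
    exact (and_or_zero _ _ _).mpr ⟨h5, h6⟩
  simp only [e2, cond_true] at a3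
  have a4 := allLt_spec _ _ a3 (i % 8) g1
  have a5 := allLt_spec _ _ a4 (j % 8) g2
  have a6 := allLt_spec _ _ a5 (k % 8) g3
  simp only [Nat.div_add_mod] at a6
  exact a6

/-- the underlying space -/
abbrev V (K : Type*) [CommRing K] := ℕ →₀ K

variable (K : Type*) [CommRing K]

noncomputable def toV : List (ℕ × ℕ) → V K
  | [] => 0
  | (k, c) :: l => Finsupp.single k (c : K) + toV l

theorem toV_app (l m : List (ℕ × ℕ)) : toV K (app l m) = toV K l + toV K m := by
  induction l with
  | nil => simp [app, toV]
  | cons p l ih => obtain ⟨k, c⟩ := p; simp only [app, toV, ih, add_assoc]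

theorem toV_sc (a : ℕ) (l : List (ℕ × ℕ)) : toV K (sc a l) = (a : K) • toV K l := by
  induction l with
  | nil => simp [sc, toV]
  | cons p l ih =>
    obtain ⟨k, c⟩ := p
    simp only [sc, toV, ih, smul_add]
    congr 1
    rw [Finsupp.smul_single, smul_eq_mul]
    change Finsupp.single k (((a * c : ℕ)) : K) = _
    push_cast
    rfl

noncomputable def mulB : V K →ₗ[K] V K →ₗ[K] V K :=
  Finsupp.linearCombination (K) fun i =>
    Finsupp.linearCombination (K) fun j => toV K (P i j)

theorem mulB_single (i j : ℕ) (x y : K) :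
    mulB K (Finsupp.single i x) (Finsupp.single j y) = (x * y) • toV K (P i j) := by
  simp only [mulB, Finsupp.linearCombination_single, LinearMap.smul_apply, smul_smul]

theorem toV_rmul (l : List (ℕ × ℕ)) (k : ℕ) :
    toV K (rmul l k) = mulB K (toV K l) (Finsupp.single k 1) := by
  induction l with
  | nil => simp [rmul, toV]
  | cons p l ih =>
    obtain ⟨i, c⟩ := p
    simp only [rmul, toV, toV_app, toV_sc, ih, map_add, LinearMap.add_apply, mulB_single, mul_one]

theorem toV_lmul (l : List (ℕ × ℕ)) (k : ℕ) :
    toV K (lmul k l) = mulB K (Finsupp.single k 1) (toV K l) := by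
  induction l with
  | nil => simp [lmul, toV]
  | cons p l ih =>
    obtain ⟨i, c⟩ := p
    simp only [lmul, toV, toV_app, toV_sc, ih, map_add, mulB_single, one_mul]

theorem toV_keydrop (k : ℕ) (l : List (ℕ × ℕ)) :
    toV K l = Finsupp.single k ((keysum k l : ℕ) : K) + toV K (keydrop k l) := by
  induction l with
  | nil => simp [keysum, keydrop, toV]
  | cons p l ih =>
    obtain ⟨j, c⟩ := p
    simp only [toV, keysum, keydrop]
    cases h : Nat.beq j k
    · simp only [cond_false, toV]
      rw [ih]
      abel
    · have hj : j = k := Nat.beq_eq.mp h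
      subst hj
      simp only [cond_true]
      rw [ih]
      have : ((Nat.add c (keysum j l) : ℕ) : K) = (c : K) + (keysum j l : K) := by
        change ((c + keysum j l : ℕ) : K) = _
        push_cast; rfl
      rw [this, Finsupp.single_add, add_assoc]

theorem zz_spec (h3 : (3 : K) = 0) : ∀ (n : ℕ) (l : List (ℕ × ℕ)), zz n l = true → toV K l = 0 := by
  intro n
  induction n with
  | zero =>
    intro l h
    cases l with
    | nil => rfl
    | cons p l => simp [zz] at h
  | succ n ih =>
    intro l h
    cases l with
    | nil => rfl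
    | cons p l =>
      obtain ⟨k, c⟩ := p
      simp only [zz, Bool.and_eq_true] at h
      obtain ⟨h1, h2⟩ := h
      have h1 : (Nat.add c (keysum k l)) % 3 = 0 := Nat.beq_eq.mp h1
      have h5 : ((c + keysum k l : ℕ) : K) = 0 := by
        obtain ⟨q, hq⟩ := Nat.dvd_of_mod_eq_zero h1
        have hq' : c + keysum k l = 3 * q := hq
        rw [hq']
        push_cast
        rw [h3, zero_mul]
      have h4 := ih _ h2
      simp only [toV]
      rw [toV_keydrop K k l, h4, add_zero, ← Finsupp.single_add]
      rw [← Nat.cast_add, h5, Finsupp.single_zero]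

theorem two_smul_neg (h3 : (3 : K) = 0) (x : V K) : (2 : K) • x = -x := by
  have : (2 : K) = -1 := by linear_combination h3
  rw [this, neg_smul, one_smul]

noncomputable def F1 (x y z : V K) : V K :=
  mulB K (mulB K x y) z + mulB K (mulB K y x) z + (-(mulB K x (mulB K y z)) + -(mulB K y (mulB K x z)))

noncomputable def F2 (x y z : V K) : V K :=
  mulB K (mulB K x y) z + mulB K (mulB K x z) y + (-(mulB K x (mulB K y z)) + -(mulB K x (mulB K z y)))

theorem toV_P (i j : ℕ) :
    toV K (P i j) = mulB K (Finsupp.single i 1) (Finsupp.single j 1) := by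
  rw [mulB_single, mul_one, one_smul]

theorem basis_zero (h3 : (3 : K) = 0) (i j k : ℕ) :
    F1 K (Finsupp.single i 1) (Finsupp.single j 1) (Finsupp.single k 1) = 0 ∧
    F2 K (Finsupp.single i 1) (Finsupp.single j 1) (Finsupp.single k 1) = 0 := by
  have e1 : toV K (app (app (rmul (P i j) k) (rmul (P j i) k))
      (app (sc 2 (lmul i (P j k))) (sc 2 (lmul j (P i k)))))
      = F1 K (Finsupp.single i 1) (Finsupp.single j 1) (Finsupp.single k 1) := by
    simp only [toV_app, toV_sc, toV_rmul, toV_lmul, toV_P, F1, Nat.cast_ofNat,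
      two_smul_neg K h3]
  have e2 : toV K (app (app (rmul (P i j) k) (rmul (P i k) j))
      (app (sc 2 (lmul i (P j k))) (sc 2 (lmul i (P k j)))))
      = F2 K (Finsupp.single i 1) (Finsupp.single j 1) (Finsupp.single k 1) := by
    simp only [toV_app, toV_sc, toV_rmul, toV_lmul, toV_P, F2, Nat.cast_ofNat,
      two_smul_neg K h3]
  by_cases h : rel i j k
  · have hc := chk_of_rel i j k h
    simp only [chk, Bool.and_eq_true] at hc
    exact ⟨by rw [← e1]; exact zz_spec K h3 _ _ hc.1, by rw [← e2]; exact zz_spec K h3 _ _ hc.2⟩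
  · have h' : ¬ rel j i k := fun hh => h ((rel_swap1 i j k).mpr hh)
    have h'' : ¬ rel i k j := fun hh => h ((rel_swap2 i j k).mpr hh)
    constructor
    · rw [← e1, rmul_rel i j k h, rmul_rel j i k h', lmul_rel i j k h, lmul_rel j i k h']
      rfl
    · rw [← e2, rmul_rel i j k h, rmul_rel i k j h'', lmul_rel i j k h, lmul_rel i k j h'']
      rfl

theorem F1_zero (h3 : (3 : K) = 0) (x y z : V K) : F1 K x y z = 0 := by
  induction x using Finsupp.induction_linear with
  | zero => simp [F1]
  | add x x' hx hx' =>
    have : F1 K (x + x') y z = F1 K x y z + F1 K x' y z := by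
      simp only [F1, map_add, LinearMap.add_apply]; abel
    rw [this, hx, hx', add_zero]
  | single i a =>
    induction y using Finsupp.induction_linear with
    | zero => simp [F1]
    | add y y' hy hy' =>
      have : F1 K (Finsupp.single i a) (y + y') z
          = F1 K (Finsupp.single i a) y z + F1 K (Finsupp.single i a) y' z := by
        simp only [F1, map_add, LinearMap.add_apply]; abel
      rw [this, hy, hy', add_zero]
    | single j b =>
      induction z using Finsupp.induction_linear with
      | zero => simp [F1]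
      | add z z' hz hz' =>
        have : F1 K (Finsupp.single i a) (Finsupp.single j b) (z + z')
            = F1 K (Finsupp.single i a) (Finsupp.single j b) z
              + F1 K (Finsupp.single i a) (Finsupp.single j b) z' := by
          simp only [F1, map_add]; abel
        rw [this, hz, hz', add_zero]
      | single k c =>
        have h := (basis_zero K h3 i j k).1
        have ei : Finsupp.single i a = a • (Finsupp.single i 1 : V K) := by
          rw [Finsupp.smul_single, smul_eq_mul, mul_one]
        have ej : Finsupp.single j b = b • (Finsupp.single j 1 : V K) := by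
          rw [Finsupp.smul_single, smul_eq_mul, mul_one]
        have ek : Finsupp.single k c = c • (Finsupp.single k 1 : V K) := by
          rw [Finsupp.smul_single, smul_eq_mul, mul_one]
        rw [ei, ej, ek]
        simp only [F1, map_smul, LinearMap.smul_apply] at h ⊢
        rw [← smul_zero (a * b * c), ← h]
        module

theorem F2_zero (h3 : (3 : K) = 0) (x y z : V K) : F2 K x y z = 0 := by
  induction x using Finsupp.induction_linear with
  | zero => simp [F2]
  | add x x' hx hx' =>
    have : F2 K (x + x') y z = F2 K x y z + F2 K x' y z := by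
      simp only [F2, map_add, LinearMap.add_apply]; abel
    rw [this, hx, hx', add_zero]
  | single i a =>
    induction y using Finsupp.induction_linear with
    | zero => simp [F2]
    | add y y' hy hy' =>
      have : F2 K (Finsupp.single i a) (y + y') z
          = F2 K (Finsupp.single i a) y z + F2 K (Finsupp.single i a) y' z := by
        simp only [F2, map_add, LinearMap.add_apply]; abel
      rw [this, hy, hy', add_zero]
    | single j b =>
      induction z using Finsupp.induction_linear with
      | zero => simp [F2]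
      | add z z' hz hz' =>
        have : F2 K (Finsupp.single i a) (Finsupp.single j b) (z + z')
            = F2 K (Finsupp.single i a) (Finsupp.single j b) z
              + F2 K (Finsupp.single i a) (Finsupp.single j b) z' := by
          simp only [F2, map_add, LinearMap.add_apply]; abel
        rw [this, hz, hz', add_zero]
      | single k c =>
        have h := (basis_zero K h3 i j k).2
        have ei : Finsupp.single i a = a • (Finsupp.single i 1 : V K) := by
          rw [Finsupp.smul_single, smul_eq_mul, mul_one]
        have ej : Finsupp.single j b = b • (Finsupp.single j 1 : V K) := by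
          rw [Finsupp.smul_single, smul_eq_mul, mul_one]
        have ek : Finsupp.single k c = c • (Finsupp.single k 1 : V K) := by
          rw [Finsupp.smul_single, smul_eq_mul, mul_one]
        rw [ei, ej, ek]
        simp only [F2, map_smul, LinearMap.smul_apply] at h ⊢
        rw [← smul_zero (a * b * c), ← h]
        module

end Pool.Agent.X272.Alt
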