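import Pool.Agent.X272.Alt.Data

namespace Pool.Agent.X272.Alt



def dec (k : ℕ) : Tr := (fill (nthT shapes (k / 45)) (nthW words (k % 45))).1

def fcoef (e : ℕ) : ℤ :=
  sgb ((e / 256 % 4096 : ℕ) : ℤ) (Nat.beq (e % 2) 1)
def fk0 (e : ℕ) : ℕ := e / 1048576 % 2048
def fk1 (e : ℕ) : ℕ := e / 2147483648 % 2048
def fg1 (e : ℕ) : ℕ := e / 4398046511104 % 16
def fk2 (e : ℕ) : ℕ := e / 70368744177664 % 2048
def fg2 (e : ℕ) : ℕ := e / 144115188075855872 % 16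
def fk3 (e : ℕ) : ℕ := e / 2305843009213693952 % 2048
def fg3 (e : ℕ) : ℕ := e / 4722366482869645213696 % 16

def ok (e : ℕ) : Bool :=
  match inst (pathOf 6 (e / 4 % 64)) (Nat.beq (e / 2 % 2) 1) (dec (fk0 e)) with
  | some (x0, x1, x2, x3) =>
    (x0.beq (dec (fk0 e)) && x1.beq (act (fg1 e) (dec (fk1 e)))) &&
      (x2.beq (act (fg2 e) (dec (fk2 e))) && x3.beq (act (fg3 e) (dec (fk3 e))))
  | none => false

def pairs (e : ℕ) : List (ℕ × ℤ) :=
  [(fk0 e, fcoef e), (fk1 e, sgz (fg1 e) (-fcoef e)), (fk2 e, sgz (fg2 e) (fcoef e)),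
    (fk3 e, sgz (fg3 e) (-fcoef e))]

def pw (k : ℕ) : ℤ := Int.ofNat (Nat.pow 2 (24 * k))

def val (e : ℕ) : ℤ :=
  (fcoef e * pw (fk0 e) + sgz (fg1 e) (-fcoef e) * pw (fk1 e)) +
    (sgz (fg2 e) (fcoef e) * pw (fk2 e) + sgz (fg3 e) (-fcoef e) * pw (fk3 e))

def chZ (F : ℕ → ℤ) : List ℕ → ℤ
  | [] => 0
  | e :: l => F e + chZ F l

def chZZ (F : ℕ → ℤ) : List (List ℕ) → ℤ
  | [] => 0
  | l :: ls => chZ F l + chZZ F ls

def allC (F : ℕ → Bool) : List ℕ → Bool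
  | [] => true
  | e :: l => F e && allC F l

def allCC (F : ℕ → Bool) : List (List ℕ) → Bool
  | [] => true
  | l :: ls => allC F l && allCC F ls

def tgtval : List (ℕ × ℤ) → ℤ
  | [] => 0
  | p :: l => (-3 * p.2) * pw p.1 + tgtval l

theorem ok_all : allCC ok data = true := by decide +kernel

theorem val_zero : chZZ val data + tgtval tgt = 0 := by decide +kernel

theorem abs_small : chZZ (fun e => Int.ofNat (4 * (e / 256 % 4096))) data < 16000000 := by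
  decide +kernel

end Pool.Agent.X272.Alt
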