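import Mathlib

/-! Multilinear words in six letters, their symmetrised values in an alternative ring,
and the bookkeeping used by the certificate for the torsion relation. -/

namespace Pool.Agent.X272.Alt

/-- A nonunital nonassociative ring is alternative when `(x,x,y) = 0 = (y,x,x)`. -/
structure IsAlt (R : Type*) [NonUnitalNonAssocRing R] : Prop where
  left : ∀ x y : R, (x * x) * y = x * (x * y)
  right : ∀ x y : R, (y * x) * x = y * (x * x)

theorem IsAlt.skewl {R : Type*} [NonUnitalNonAssocRing R] (h : IsAlt R) (p q r : R) :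
    (p * q) * r - p * (q * r) + ((q * p) * r - q * (p * r)) = 0 := by
  have h1 := h.left (p + q) r
  have h2 := h.left p r
  have h3 := h.left q r
  simp only [add_mul, mul_add] at h1
  rw [h2, h3] at h1
  have : (p * q) * r + (q * p) * r = p * (q * r) + q * (p * r) := by
    have e : p * (p * r) + q * p * r + (p * q * r + q * (q * r))
      = p * (p * r) + p * (q * r) + (q * (p * r) + q * (q * r)) := by
      first
        | exact h1
        | (rw [← sub_eq_zero] at h1 ⊢; rw [← h1]; abel)
    have e2 := sub_eq_zero.mpr e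
    rw [← sub_eq_zero, ← e2]
    abel
  rw [← sub_eq_zero] at this
  rw [← this]
  abel

theorem IsAlt.skewr {R : Type*} [NonUnitalNonAssocRing R] (h : IsAlt R) (p q r : R) :
    (p * q) * r - p * (q * r) + ((p * r) * q - p * (r * q)) = 0 := by
  have h1 := h.right (q + r) p
  have h2 := h.right q p
  have h3 := h.right r p
  simp only [add_mul, mul_add] at h1
  rw [h2, h3] at h1
  have : (p * q) * r + (p * r) * q = p * (q * r) + p * (r * q) := by
    have e2 := sub_eq_zero.mpr h1
    rw [← sub_eq_zero, ← e2]
    abel
  rw [← sub_eq_zero] at this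
  rw [← this]
  abel

inductive Lt | a | b | c | d | e | f
  deriving DecidableEq

inductive Tr | v (x : Lt) | m (l r : Tr)

open Lt Tr

def Lt.beq : Lt → Lt → Bool
  | a, a => true
  | b, b => true
  | c, c => true
  | d, d => true
  | e, e => true
  | f, f => true
  | _, _ => false

theorem Lt.beq_eq : ∀ x y : Lt, Lt.beq x y = true → x = y := by
  intro x y; cases x <;> cases y <;> simp [Lt.beq]

def Tr.beq : Tr → Tr → Bool
  | v x, v y => Lt.beq x y
  | m l r, m l' r' => Tr.beq l l' && Tr.beq r r'
  | _, _ => false

theorem Tr.beq_eq : ∀ x y : Tr, Tr.beq x y = true → x = y := by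
  intro x
  induction x with
  | v x => intro y; cases y <;> simp [Tr.beq]; exact Lt.beq_eq _ _
  | m l r ihl ihr =>
    intro y
    cases y with
    | v y => simp [Tr.beq]
    | m l' r' =>
      simp only [Tr.beq, Bool.and_eq_true, m.injEq]
      rintro ⟨h1, h2⟩
      exact ⟨ihl _ h1, ihr _ h2⟩

section
variable {R : Type*} [NonUnitalNonAssocRing R]

/-- Value of a word at six elements. -/
def ev (A B C D E F : R) : Tr → R
  | v a => A
  | v b => B
  | v c => C
  | v d => D
  | v e => E
  | v f => F
  | m l r => ev A B C D E F l * ev A B C D E F r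

/-- Signed sum over the group of order 16 generated by `(ab)`, `(cd)`, `(ef)` and
`(ce)(df)`, with the sign character of the six letters. -/
def sy (A B C D E F : R) (t : Tr) : R :=
  (((ev A B C D E F t - ev B A C D E F t) - (ev A B D C E F t - ev B A D C E F t))
    - ((ev A B C D F E t - ev B A C D F E t) - (ev A B D C F E t - ev B A D C F E t)))
  + (((ev A B E F C D t - ev B A E F C D t) - (ev A B F E C D t - ev B A F E C D t))
    - ((ev A B E F D C t - ev B A E F D C t) - (ev A B F E D C t - ev B A F E D C t)))
end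

def s1 : Lt → Lt | a => b | b => a | c => c | d => d | e => e | f => f
def s2 : Lt → Lt | a => a | b => b | c => d | d => c | e => e | f => f
def s3 : Lt → Lt | a => a | b => b | c => c | d => d | e => f | f => e
def s4 : Lt → Lt | a => a | b => b | c => e | d => f | e => c | f => d

def Tr.map (g : Lt → Lt) : Tr → Tr
  | v x => v (g x)
  | m l r => m (l.map g) (r.map g)

theorem Tr.map_map (g h : Lt → Lt) (t : Tr) : (t.map g).map h = t.map (fun x => h (g x)) := by
  induction t with
  | v x => rfl
  | m l r ihl ihr => simp [Tr.map, ihl, ihr]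

theorem Tr.map_id' (t : Tr) : t.map (fun x => x) = t := by
  induction t with
  | v x => rfl
  | m l r ihl ihr => simp [Tr.map, ihl, ihr]

section
variable {R : Type*} [NonUnitalNonAssocRing R]

theorem ev_s1 (A B C D E F : R) (t : Tr) : ev A B C D E F (t.map s1) = ev B A C D E F t := by
  induction t with
  | v x => cases x <;> rfl
  | m l r ihl ihr => simp [Tr.map, ev, ihl, ihr]

theorem ev_s2 (A B C D E F : R) (t : Tr) : ev A B C D E F (t.map s2) = ev A B D C E F t := by
  induction t with
  | v x => cases x <;> rfl
  | m l r ihl ihr => simp [Tr.map, ev, ihl, ihr]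

theorem ev_s3 (A B C D E F : R) (t : Tr) : ev A B C D E F (t.map s3) = ev A B C D F E t := by
  induction t with
  | v x => cases x <;> rfl
  | m l r ihl ihr => simp [Tr.map, ev, ihl, ihr]

theorem ev_s4 (A B C D E F : R) (t : Tr) : ev A B C D E F (t.map s4) = ev A B E F C D t := by
  induction t with
  | v x => cases x <;> rfl
  | m l r ihl ihr => simp [Tr.map, ev, ihl, ihr]

theorem sy_s1 (A B C D E F : R) (t : Tr) : sy A B C D E F (t.map s1) = - sy A B C D E F t := by
  simp only [sy, ev_s1]; abel

theorem sy_s2 (A B C D E F : R) (t : Tr) : sy A B C D E F (t.map s2) = - sy A B C D E F t := by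
  simp only [sy, ev_s2]; abel

theorem sy_s3 (A B C D E F : R) (t : Tr) : sy A B C D E F (t.map s3) = - sy A B C D E F t := by
  simp only [sy, ev_s3]; abel

theorem sy_s4 (A B C D E F : R) (t : Tr) : sy A B C D E F (t.map s4) = sy A B C D E F t := by
  simp only [sy, ev_s4]; abel
end

/-- action of a group element coded by four bits -/
def act (g : ℕ) (t : Tr) : Tr :=
  let t1 := bif Nat.beq (g % 2) 1 then t.map s1 else t
  let t2 := bif Nat.beq (g / 2 % 2) 1 then t1.map s2 else t1
  let t3 := bif Nat.beq (g / 4 % 2) 1 then t2.map s3 else t2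
  bif Nat.beq (g / 8 % 2) 1 then t3.map s4 else t3

def sgb (x : ℤ) (b : Bool) : ℤ := bif b then -x else x

def sgz (g : ℕ) (x : ℤ) : ℤ :=
  sgb (sgb (sgb x (Nat.beq (g % 2) 1)) (Nat.beq (g / 2 % 2) 1)) (Nat.beq (g / 4 % 2) 1)

section
variable {R : Type*} [NonUnitalNonAssocRing R]

theorem sy_act (A B C D E F : R) (g : ℕ) (t : Tr) (x : ℤ) :
    x • sy A B C D E F (act g t) = sgz g x • sy A B C D E F t := by
  unfold act sgz sgb
  cases Nat.beq (g % 2) 1 <;> cases Nat.beq (g / 2 % 2) 1 <;> cases Nat.beq (g / 4 % 2) 1 <;>
    cases Nat.beq (g / 8 % 2) 1 <;>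
    simp only [cond_true, cond_false, sy_s1, sy_s2, sy_s3, sy_s4, neg_neg, smul_neg, neg_smul]
end

/-- the alternator instance of a word at a position -/
def inst : List Bool → Bool → Tr → Option (Tr × Tr × Tr × Tr)
  | [], false, m (m p q) r => some (m (m p q) r, m p (m q r), m (m q p) r, m q (m p r))
  | [], true, m (m p q) r => some (m (m p q) r, m p (m q r), m (m p r) q, m p (m r q))
  | false :: ps, k, m l r =>
    match inst ps k l with
    | some (x0, x1, x2, x3) => some (m x0 r, m x1 r, m x2 r, m x3 r)
    | none => none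
  | true :: ps, k, m l r =>
    match inst ps k r with
    | some (x0, x1, x2, x3) => some (m l x0, m l x1, m l x2, m l x3)
    | none => none
  | _, _, _ => none

section
variable {R : Type*} [NonUnitalNonAssocRing R]

theorem ev_inst (hR : IsAlt R) (A B C D E F : R) : ∀ (ps : List Bool) (k : Bool) (t : Tr)
    (x0 x1 x2 x3 : Tr), inst ps k t = some (x0, x1, x2, x3) →
    ev A B C D E F x0 - ev A B C D E F x1 + (ev A B C D E F x2 - ev A B C D E F x3) = 0 := by
  intro ps
  induction ps with
  | nil =>
    intro k t x0 x1 x2 x3 h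
    cases t with
    | v x => cases k <;> simp [inst] at h
    | m l r =>
      cases l with
      | v x => cases k <;> simp [inst] at h
      | m p q =>
        cases k
        · simp only [inst, Option.some.injEq, Prod.mk.injEq] at h
          obtain ⟨rfl, rfl, rfl, rfl⟩ := h
          exact hR.skewl _ _ _
        · simp only [inst, Option.some.injEq, Prod.mk.injEq] at h
          obtain ⟨rfl, rfl, rfl, rfl⟩ := h
          exact hR.skewr _ _ _
  | cons b ps ih =>
    intro k t x0 x1 x2 x3 h
    cases t with
    | v x => cases b <;> cases k <;> simp [inst] at h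
    | m l r =>
      cases b with
      | false =>
        simp only [inst] at h
        cases hh : inst ps k l with
        | none => rw [hh] at h; simp at h
        | some y =>
          obtain ⟨y0, y1, y2, y3⟩ := y
          rw [hh] at h
          simp only [Option.some.injEq, Prod.mk.injEq] at h
          obtain ⟨rfl, rfl, rfl, rfl⟩ := h
          have := ih k l _ _ _ _ hh
          simp only [ev, ← sub_mul, ← add_mul, this, zero_mul]
      | true =>
        simp only [inst] at h
        cases hh : inst ps k r with
        | none => rw [hh] at h; simp at h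
        | some y =>
          obtain ⟨y0, y1, y2, y3⟩ := y
          rw [hh] at h
          simp only [Option.some.injEq, Prod.mk.injEq] at h
          obtain ⟨rfl, rfl, rfl, rfl⟩ := h
          have := ih k r _ _ _ _ hh
          simp only [ev, ← mul_sub, ← mul_add, this, mul_zero]

theorem sy_inst (hR : IsAlt R) (A B C D E F : R) (ps : List Bool) (k : Bool) (t : Tr)
    (x0 x1 x2 x3 : Tr) (h : inst ps k t = some (x0, x1, x2, x3)) :
    sy A B C D E F x0 - sy A B C D E F x1 + (sy A B C D E F x2 - sy A B C D E F x3) = 0 := by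
  have H := fun (A B C D E F : R) => ev_inst hR A B C D E F ps k t x0 x1 x2 x3 h
  have e := congrArg₂ (· + ·)
    (congrArg₂ (· - ·)
      (congrArg₂ (· - ·) (congrArg₂ (· - ·) (H A B C D E F) (H B A C D E F))
        (congrArg₂ (· - ·) (H A B D C E F) (H B A D C E F)))
      (congrArg₂ (· - ·) (congrArg₂ (· - ·) (H A B C D F E) (H B A C D F E))
        (congrArg₂ (· - ·) (H A B D C F E) (H B A D C F E))))
    (congrArg₂ (· - ·)
      (congrArg₂ (· - ·) (congrArg₂ (· - ·) (H A B E F C D) (H B A E F C D))
        (congrArg₂ (· - ·) (H A B F E C D) (H B A F E C D)))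
      (congrArg₂ (· - ·) (congrArg₂ (· - ·) (H A B E F D C) (H B A E F D C))
        (congrArg₂ (· - ·) (H A B F E D C) (H B A F E D C))))
  simp only [sub_zero, add_zero] at e
  rw [← e]
  simp only [sy]
  abel
end

def nthT : List Tr → ℕ → Tr
  | [], _ => v a
  | x :: _, 0 => x
  | _ :: xs, n + 1 => nthT xs n

def nthW : List (List Lt) → ℕ → List Lt
  | [], _ => []
  | x :: _, 0 => x
  | _ :: xs, n + 1 => nthW xs n

def fill : Tr → List Lt → Tr × List Lt
  | v _, [] => (v a, [])
  | v _, x :: xs => (v x, xs)
  | m l r, xs =>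
    match fill l xs with
    | (l', xs') =>
      match fill r xs' with
      | (r', xs'') => (m l' r', xs'')

def pathOf : ℕ → ℕ → List Bool
  | 0, _ => []
  | n + 1, k => bif Nat.ble k 1 then [] else (Nat.beq (k % 2) 1) :: pathOf n (k / 2)

/-- digits -/
theorem digits_zero (B : ℤ) : ∀ (N : ℕ) (F : ℕ → ℤ), (∀ k, |F k| < B) →
    ∑ k ∈ Finset.range N, F k * B ^ k = 0 → ∀ k < N, F k = 0 := by
  intro N
  induction N with
  | zero => intro F _ _ k hk; omega
  | succ N ih =>
    intro F hF h
    have hB : 0 < B := lt_of_le_of_lt (abs_nonneg _) (hF 0)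
    rw [Finset.sum_range_succ'] at h
    have e : ∑ k ∈ Finset.range N, F (k + 1) * B ^ (k + 1)
        = B * ∑ k ∈ Finset.range N, F (k + 1) * B ^ k := by
      rw [Finset.mul_sum]
      refine Finset.sum_congr rfl fun k _ => ?_
      ring
    rw [e] at h
    simp only [pow_zero, mul_one] at h
    have hd : B ∣ F 0 := ⟨-∑ k ∈ Finset.range N, F (k + 1) * B ^ k, by linarith⟩
    have h0 : F 0 = 0 := Int.eq_zero_of_abs_lt_dvd hd (hF 0)
    rw [h0, add_zero] at h
    have h1 : ∑ k ∈ Finset.range N, F (k + 1) * B ^ k = 0 := by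
      rcases mul_eq_zero.mp h with h | h
      · omega
      · exact h
    have := ih (fun k => F (k + 1)) (fun k => hF (k + 1)) h1
    intro k hk
    cases k with
    | zero => exact h0
    | succ k => exact this k (by omega)

/-- coefficient of index `k` in a list of (index, coefficient) -/
def co (l : List (ℕ × ℤ)) (k : ℕ) : ℤ := (l.map fun p => if p.1 = k then p.2 else 0).sum

def absum (l : List (ℕ × ℤ)) : ℤ := (l.map fun p => |p.2|).sum

theorem co_le (l : List (ℕ × ℤ)) (k : ℕ) : |co l k| ≤ absum l := by
  induction l with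
  | nil => simp [co, absum]
  | cons p l ih =>
    have e1 : co (p :: l) k = (if p.1 = k then p.2 else 0) + co l k := by simp [co]
    have e2 : absum (p :: l) = |p.2| + absum l := by simp [absum]
    rw [e1, e2]
    refine (abs_add_le _ _).trans ?_
    have : |(if p.1 = k then p.2 else 0 : ℤ)| ≤ |p.2| := by
      split <;> simp
    linarith

theorem sum_co {M : Type*} [AddCommGroup M] (g : ℕ → M) (N : ℕ) (l : List (ℕ × ℤ))
    (hl : ∀ p ∈ l, p.1 < N) :
    (l.map fun p => p.2 • g p.1).sum = ∑ k ∈ Finset.range N, co l k • g k := by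
  induction l with
  | nil => simp [co]
  | cons p l ih =>
    have e1 : ∀ k, co (p :: l) k = (if p.1 = k then p.2 else 0) + co l k := by
      intro k; simp [co]
    simp only [List.map_cons, List.sum_cons, e1, add_smul, Finset.sum_add_distrib]
    rw [ih (fun q hq => hl q (List.mem_cons_of_mem _ hq))]
    congr 1
    rw [Finset.sum_eq_single p.1]
    · simp
    · intro k _ hk; rw [if_neg (fun h => hk h.symm)]; simp
    · intro h
      exact absurd (Finset.mem_range.mpr (hl p (List.mem_cons_self))) h

theorem list_zero {M : Type*} [AddCommGroup M] (g : ℕ → M) (B : ℤ) (N : ℕ)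
    (l : List (ℕ × ℤ)) (hl : ∀ p ∈ l, p.1 < N) (hB : absum l < B)
    (h : (l.map fun p => p.2 * B ^ p.1).sum = 0) :
    (l.map fun p => p.2 • g p.1).sum = 0 := by
  have e := sum_co (fun k => B ^ k) N l hl
  simp only [smul_eq_mul] at e
  rw [h] at e
  have hz := digits_zero B N (co l) (fun k => lt_of_le_of_lt (co_le l k) hB) e.symm
  rw [sum_co g N l hl]
  refine Finset.sum_eq_zero fun k hk => ?_
  rw [hz k (Finset.mem_range.mp hk), zero_smul]

end Pool.Agent.X272.Alt
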