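import Mathlib

namespace Pool.Agent.X272.Alt

/-- The ideal of the free nonassociative `Φ`-algebra on `X` generated by all alternators
`(f,f,g) = (ff)g - f(fg)` and `(g,f,f) = (gf)f - g(ff)`: the smallest `Φ`-submodule that contains
them and is closed under left and right multiplication by arbitrary elements. -/
noncomputable def altIdeal (Φ : Type*) [CommRing Φ] (X : Type*) :
    Submodule Φ (FreeNonUnitalNonAssocAlgebra Φ X) :=
  sInf {J | (∀ f g : FreeNonUnitalNonAssocAlgebra Φ X, (f * f) * g - f * (f * g) ∈ J) ∧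
    (∀ f g : FreeNonUnitalNonAssocAlgebra Φ X, (g * f) * f - g * (f * f) ∈ J) ∧
    ∀ x ∈ J, ∀ y : FreeNonUnitalNonAssocAlgebra Φ X, x * y ∈ J ∧ y * x ∈ J}

/-- The free alternative `Φ`-algebra on `X`, as a `Φ`-module: the free nonassociative algebra
modulo the ideal generated by the alternators. -/
abbrev FreeAlt (Φ : Type*) [CommRing Φ] (X : Type*) : Type _ :=
  FreeNonUnitalNonAssocAlgebra Φ X ⧸ altIdeal Φ X

end Pool.Agent.X272.Alt
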