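import Pool.Agent.X272.Alt.Ring
import Pool.Agent.X272.Alt.Def

namespace Pool.Agent.X272.Alt

section
variable {Φ : Type*} [CommRing Φ] {X : Type*}

theorem altIdeal_left (f g : FreeNonUnitalNonAssocAlgebra Φ X) :
    (f * f) * g - f * (f * g) ∈ altIdeal Φ X :=
  Submodule.mem_sInf.mpr fun _ hJ => hJ.1 f g

theorem altIdeal_right (f g : FreeNonUnitalNonAssocAlgebra Φ X) :
    (g * f) * f - g * (f * f) ∈ altIdeal Φ X :=
  Submodule.mem_sInf.mpr fun _ hJ => hJ.2.1 f g

theorem altIdeal_mul (x y : FreeNonUnitalNonAssocAlgebra Φ X) (hx : x ∈ altIdeal Φ X) :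
    x * y ∈ altIdeal Φ X ∧ y * x ∈ altIdeal Φ X :=
  ⟨Submodule.mem_sInf.mpr fun J hJ => (hJ.2.2 x (Submodule.mem_sInf.mp hx J hJ) y).1,
    Submodule.mem_sInf.mpr fun J hJ => (hJ.2.2 x (Submodule.mem_sInf.mp hx J hJ) y).2⟩

/-- the congruence of the ideal -/
noncomputable def altCon (Φ : Type*) [CommRing Φ] (X : Type*) : RingCon (FreeNonUnitalNonAssocAlgebra Φ X) where
  r a b := a - b ∈ altIdeal Φ X
  iseqv := by
    refine ⟨fun a => ?_, fun {a b} h => ?_, fun {a b c} h1 h2 => ?_⟩
    · rw [sub_self]; exact Submodule.zero_mem _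
    · have := Submodule.neg_mem _ h
      rwa [neg_sub] at this
    · have := Submodule.add_mem _ h1 h2
      rwa [sub_add_sub_cancel] at this
  mul' := by
    intro a b c d h1 h2
    have e : a * c - b * d = (a - b) * c + b * (c - d) := by
      rw [sub_mul, mul_sub]; abel
    change a * c - b * d ∈ _
    rw [e]
    exact Submodule.add_mem _ (altIdeal_mul _ _ h1).1 (altIdeal_mul _ _ h2).2
  add' := by
    intro a b c d h1 h2
    have e : (a + c) - (b + d) = (a - b) + (c - d) := by abel
    change (a + c) - (b + d) ∈ _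
    rw [e]
    exact Submodule.add_mem _ h1 h2

theorem isAlt_quot : IsAlt (altCon Φ X).Quotient where
  left x y := by
    induction x using Quotient.inductionOn with
    | _ f =>
      induction y using Quotient.inductionOn with
      | _ g => exact Quotient.sound (altIdeal_left f g)
  right x y := by
    induction x using Quotient.inductionOn with
    | _ f =>
      induction y using Quotient.inductionOn with
      | _ g => exact Quotient.sound (altIdeal_right f g)

theorem map_ev {R S : Type*} [NonUnitalNonAssocRing R] [NonUnitalNonAssocRing S]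
    (φ : R →ₙ+* S) (A B C D E F : R) (t : Tr) :
    φ (ev A B C D E F t) = ev (φ A) (φ B) (φ C) (φ D) (φ E) (φ F) t := by
  induction t with
  | v x => cases x <;> rfl
  | m l r ihl ihr => simp only [ev, map_mul, ihl, ihr]

theorem map_sy {R S : Type*} [NonUnitalNonAssocRing R] [NonUnitalNonAssocRing S]
    (φ : R →ₙ+* S) (A B C D E F : R) (t : Tr) :
    φ (sy A B C D E F t) = sy (φ A) (φ B) (φ C) (φ D) (φ E) (φ F) t := by
  simp only [sy, map_add, map_sub, map_ev]

theorem map_tv {R S : Type*} [NonUnitalNonAssocRing R] [NonUnitalNonAssocRing S]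
    (φ : R →ₙ+* S) (A B C D E F : R) :
    φ (tv A B C D E F) = tv (φ A) (φ B) (φ C) (φ D) (φ E) (φ F) := by
  unfold tv
  generalize tgt = l
  induction l with
  | nil => simp
  | cons p l ih => simp only [List.map_cons, List.sum_cons, map_add, map_zsmul, map_sy, ih]

/-- the projection -/
noncomputable def prj : FreeNonUnitalNonAssocAlgebra Φ X →ₙ+* (altCon Φ X).Quotient where
  toFun x := (x : (altCon Φ X).Quotient)
  map_mul' _ _ := rfl
  map_zero' := rfl
  map_add' _ _ := rfl

theorem three_tv_mem (x : Fin 6 → X) :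
    (3 : ℤ) • tv (R := FreeNonUnitalNonAssocAlgebra Φ X)
      (FreeNonUnitalNonAssocAlgebra.of Φ (x 0)) (FreeNonUnitalNonAssocAlgebra.of Φ (x 1))
      (FreeNonUnitalNonAssocAlgebra.of Φ (x 2)) (FreeNonUnitalNonAssocAlgebra.of Φ (x 3))
      (FreeNonUnitalNonAssocAlgebra.of Φ (x 4)) (FreeNonUnitalNonAssocAlgebra.of Φ (x 5))
      ∈ altIdeal Φ X := by
  set u := tv (R := FreeNonUnitalNonAssocAlgebra Φ X)
      (FreeNonUnitalNonAssocAlgebra.of Φ (x 0)) (FreeNonUnitalNonAssocAlgebra.of Φ (x 1))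
      (FreeNonUnitalNonAssocAlgebra.of Φ (x 2)) (FreeNonUnitalNonAssocAlgebra.of Φ (x 3))
      (FreeNonUnitalNonAssocAlgebra.of Φ (x 4)) (FreeNonUnitalNonAssocAlgebra.of Φ (x 5)) with hu
  have h : prj (Φ := Φ) (X := X) ((3 : ℤ) • u) = prj 0 := by
    rw [map_zsmul, hu, map_tv, tors isAlt_quot, map_zero]
  have h2 : (3 : ℤ) • u - 0 ∈ altIdeal Φ X := Quotient.exact h
  rwa [sub_zero] at h2

end

/-- scalars through an algebra map -/
noncomputable instance instModBB (Φ K : Type*) [CommRing Φ] [CommRing K] [Algebra Φ K] :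
    Module Φ (BB K) := inferInstanceAs (Module Φ (ℕ →₀ K))

theorem smul_BB {Φ K : Type*} [CommRing Φ] [CommRing K] [Algebra Φ K] (a : Φ) (x : BB K) :
    a • x = ((algebraMap Φ K a) • (show V K from x) : V K) := by
  refine Finsupp.ext fun i => ?_
  change a • ((show V K from x) i) = algebraMap Φ K a * ((show V K from x) i)
  exact Algebra.smul_def _ _

theorem mulB_smul_left (K : Type*) [CommRing K] (a : K) (x y : V K) :
    mulB K (a • x) y = a • mulB K x y := by
  rw [map_smul, LinearMap.smul_apply]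

theorem mulB_smul_right (K : Type*) [CommRing K] (a : K) (x y : V K) :
    mulB K x (a • y) = a • mulB K x y := map_smul _ _ _

noncomputable instance instSTBB (Φ K : Type*) [CommRing Φ] [CommRing K] [Algebra Φ K] :
    IsScalarTower Φ (BB K) (BB K) where
  smul_assoc a x y := by
    rw [smul_eq_mul, smul_eq_mul, smul_BB, smul_BB]
    exact mulB_smul_left K _ _ _

noncomputable instance instSCBB (Φ K : Type*) [CommRing Φ] [CommRing K] [Algebra Φ K] :
    SMulCommClass Φ (BB K) (BB K) where
  smul_comm a x y := by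
    rw [smul_eq_mul, smul_eq_mul, smul_BB, smul_BB]
    exact (mulB_smul_right K _ _ _).symm

/-- indices of the six generators in the model -/
def gi : Fin 6 → ℕ := ![8, 16, 32, 64, 128, 256]

theorem tv_not_mem {Φ : Type*} [CommRing Φ] {X : Type*} (h3 : ¬ IsUnit (3 : Φ)) (x : Fin 6 → X)
    (hx : Function.Injective x) :
    tv (R := FreeNonUnitalNonAssocAlgebra Φ X)
      (FreeNonUnitalNonAssocAlgebra.of Φ (x 0)) (FreeNonUnitalNonAssocAlgebra.of Φ (x 1))
      (FreeNonUnitalNonAssocAlgebra.of Φ (x 2)) (FreeNonUnitalNonAssocAlgebra.of Φ (x 3))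
      (FreeNonUnitalNonAssocAlgebra.of Φ (x 4)) (FreeNonUnitalNonAssocAlgebra.of Φ (x 5))
      ∉ altIdeal Φ X := by
  intro hmem
  set I : Ideal Φ := Ideal.span {(3 : Φ)} with hI
  have hne : I ≠ ⊤ := by
    rw [hI, Ne, Ideal.span_singleton_eq_top]
    exact h3
  have : Nontrivial (Φ ⧸ I) := Ideal.Quotient.nontrivial_iff.mpr hne
  have h30 : (3 : Φ ⧸ I) = 0 := by
    have : (Ideal.Quotient.mk I) 3 = 0 :=
      Ideal.Quotient.eq_zero_iff_mem.mpr (Ideal.mem_span_singleton_self _)
    rw [← this]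
    rfl
  set K := Φ ⧸ I with hK
  set y : X → BB K := Function.extend x (fun i => bv K (gi i)) 0 with hy
  set φ := FreeNonUnitalNonAssocAlgebra.lift Φ y with hφ
  have hof : ∀ i, φ (FreeNonUnitalNonAssocAlgebra.of Φ (x i)) = bv K (gi i) := by
    intro i
    rw [hφ, FreeNonUnitalNonAssocAlgebra.lift_of_apply, hy, hx.extend_apply]
  -- the kernel of `φ` is one of the ideals in the intersection
  have hA := isAlt_BB K h30
  have hker : altIdeal Φ X ≤ LinearMap.ker (φ : FreeNonUnitalNonAssocAlgebra Φ X →ₗ[Φ] BB K) := by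
    refine sInf_le ⟨fun f g => ?_, fun f g => ?_, fun u hu v => ⟨?_, ?_⟩⟩
    · rw [LinearMap.mem_ker]
      change φ _ = 0
      rw [map_sub, map_mul, map_mul, map_mul, map_mul, hA.left, sub_self]
    · rw [LinearMap.mem_ker]
      change φ _ = 0
      rw [map_sub, map_mul, map_mul, map_mul, map_mul, hA.right, sub_self]
    · rw [LinearMap.mem_ker] at hu ⊢
      change φ _ = 0 at hu
      change φ _ = 0
      rw [map_mul, hu, zero_mul]
    · rw [LinearMap.mem_ker] at hu ⊢
      change φ _ = 0 at hu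
      change φ _ = 0
      rw [map_mul, hu, mul_zero]
  have h0 := hker hmem
  rw [LinearMap.mem_ker] at h0
  change (φ : FreeNonUnitalNonAssocAlgebra Φ X →ₙ+* BB K) _ = 0 at h0
  rw [map_tv] at h0
  refine tv_ne K h30 ?_
  have e : ∀ i, (φ : FreeNonUnitalNonAssocAlgebra Φ X →ₙ+* BB K)
      (FreeNonUnitalNonAssocAlgebra.of Φ (x i)) = bv K (gi i) := hof
  rw [e, e, e, e, e, e] at h0
  exact h0

end Pool.Agent.X272.Alt
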