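import Pool.Agent.X272.Alt.Table

namespace Pool.Agent.X272.Alt

def TT.get {α : Type} (d : α) : TT α → ℕ → α
  | .e, _ => d
  | .l x, _ => x
  | .n x y, i => bif Nat.beq (i % 2) 0 then x.get d (i / 2) else y.get d (i / 2)

def scan : List (ℕ × List (ℕ × ℕ)) → ℕ → List (ℕ × ℕ)
  | [], _ => []
  | (j', x) :: l, j => bif Nat.beq j' j then x else scan l j

/-- number of basis vectors in the component of mask `U` -/
def dm (U : ℕ) : ℕ := bif Nat.ble 64 U then 0 else dimN / Nat.pow 8 U % 8

def good (i : ℕ) : Bool := Nat.blt (i % 8) (dm (i / 8))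

def disj (i j : ℕ) : Bool := Nat.beq (Nat.land (i / 8) (j / 8)) 0

def lift (w : ℕ) : List (ℕ × ℕ) → List (ℕ × ℕ)
  | [] => []
  | (k, c) :: l => (8 * w + k % 8, c) :: lift w l

/-- product of two basis vectors -/
def P (i j : ℕ) : List (ℕ × ℕ) :=
  bif good i && (good j && disj i j) then
    lift (Nat.lor (i / 8) (j / 8)) (scan (rows.get [] i) j)
  else []

def sc (a : ℕ) : List (ℕ × ℕ) → List (ℕ × ℕ)
  | [] => []
  | (k, c) :: l => (k, Nat.mul a c) :: sc a l

def app : List (ℕ × ℕ) → List (ℕ × ℕ) → List (ℕ × ℕ)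
  | [], m => m
  | x :: l, m => x :: app l m

def rmul : List (ℕ × ℕ) → ℕ → List (ℕ × ℕ)
  | [], _ => []
  | (i, c) :: l, k => app (sc c (P i k)) (rmul l k)

def lmul (i : ℕ) : List (ℕ × ℕ) → List (ℕ × ℕ)
  | [] => []
  | (j, c) :: l => app (sc c (P i j)) (lmul i l)

def keysum (k : ℕ) : List (ℕ × ℕ) → ℕ
  | [] => 0
  | (j, c) :: l => bif Nat.beq j k then Nat.add c (keysum k l) else keysum k l

def keydrop (k : ℕ) : List (ℕ × ℕ) → List (ℕ × ℕ)
  | [] => []
  | (j, c) :: l => bif Nat.beq j k then keydrop k l else (j, c) :: keydrop k l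

def zz : ℕ → List (ℕ × ℕ) → Bool
  | _, [] => true
  | 0, _ :: _ => false
  | n + 1, (k, c) :: l => Nat.beq (Nat.add c (keysum k l) % 3) 0 && zz n (keydrop k l)

def chk (i j k : ℕ) : Bool :=
  zz 9 (app (app (rmul (P i j) k) (rmul (P j i) k))
      (app (sc 2 (lmul i (P j k))) (sc 2 (lmul j (P i k)))))
  && zz 9 (app (app (rmul (P i j) k) (rmul (P i k) j))
      (app (sc 2 (lmul i (P j k))) (sc 2 (lmul i (P k j)))))

def allLt : ℕ → (ℕ → Bool) → Bool
  | 0, _ => true
  | n + 1, p => p n && allLt n p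

theorem allLt_spec (n : ℕ) (p : ℕ → Bool) (h : allLt n p = true) : ∀ i < n, p i = true := by
  induction n with
  | zero => intro i hi; omega
  | succ n ih =>
    simp only [allLt, Bool.and_eq_true] at h
    intro i hi
    rcases Nat.lt_succ_iff_lt_or_eq.mp hi with hi | rfl
    · exact ih h.2 i hi
    · exact h.1

def chkAll : Bool :=
  allLt 64 fun U => allLt 64 fun V =>
    bif Nat.beq (Nat.land U V) 0 then
      allLt 64 fun W => bif Nat.beq (Nat.land (Nat.lor U V) W) 0 then
        allLt (dm U) fun r => allLt (dm V) fun s => allLt (dm W) fun t =>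
          chk (8 * U + r) (8 * V + s) (8 * W + t)
        else true
      else true

theorem chkAll_true : chkAll = true := by decide +kernel

end Pool.Agent.X272.Alt
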