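import Pool.Agent.X272.Alt.Alg

namespace Pool.Agent.X272.Alt

variable (K : Type*) [CommRing K]

/-- the finite model, as a ring -/
def BB (K : Type*) [CommRing K] := V K

noncomputable instance : AddCommGroup (BB K) := inferInstanceAs (AddCommGroup (ℕ →₀ K))
noncomputable instance : Module K (BB K) := inferInstanceAs (Module K (ℕ →₀ K))
noncomputable instance : Mul (BB K) := ⟨fun x y => mulB K x y⟩

theorem BB.mul_def (x y : BB K) : x * y = mulB K x y := rfl

noncomputable instance : NonUnitalNonAssocRing (BB K) where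
  __ := (inferInstance : AddCommGroup (BB K))
  left_distrib x y z := map_add (mulB K x) y z
  right_distrib x y z := by
    have h : mulB K (x + y) = mulB K x + mulB K y := map_add (mulB K) x y
    exact congrArg (fun g => g z) h
  zero_mul x := by
    have h : mulB K (0 : V K) = 0 := map_zero (mulB K)
    exact congrArg (fun g => g x) h
  mul_zero x := map_zero (mulB K x)

theorem isAlt_BB (h3 : (3 : K) = 0) : IsAlt (BB K) where
  left x y := by
    have h : F1 K x x y = 0 := F1_zero K h3 x x y
    have h2 : (mulB K (mulB K x x) y) - mulB K x (mulB K x y)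
        = (3 : K) • ((mulB K (mulB K x x) y) - mulB K x (mulB K x y)) - F1 K x x y := by
      unfold F1; module
    rw [h3, zero_smul, h, sub_zero] at h2
    exact sub_eq_zero.mp h2
  right x y := by
    have h : F2 K y x x = 0 := F2_zero K h3 y x x
    have h2 : (mulB K (mulB K y x) x) - mulB K y (mulB K x x)
        = (3 : K) • ((mulB K (mulB K y x) x) - mulB K y (mulB K x x)) - F2 K y x x := by
      unfold F2; module
    rw [h3, zero_smul, h, sub_zero] at h2
    exact sub_eq_zero.mp h2

def mulL : List (ℕ × ℕ) → List (ℕ × ℕ) → List (ℕ × ℕ)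
  | [], _ => []
  | (i, c) :: l, m => app (sc c (lmul i m)) (mulL l m)

theorem toV_mulL (l m : List (ℕ × ℕ)) : toV K (mulL l m) = mulB K (toV K l) (toV K m) := by
  induction l with
  | nil => simp [mulL, toV]
  | cons p l ih =>
    obtain ⟨i, c⟩ := p
    simp only [mulL, toV, toV_app, toV_sc, ih, map_add, LinearMap.add_apply, toV_lmul]
    congr 1
    have e : Finsupp.single i (c : K) = (c : K) • (Finsupp.single i 1 : V K) := by
      rw [Finsupp.smul_single, smul_eq_mul, mul_one]
    rw [e, map_smul, LinearMap.smul_apply]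

def evL (A B C D E F : ℕ) : Tr → List (ℕ × ℕ)
  | .v .a => [(A, 1)]
  | .v .b => [(B, 1)]
  | .v .c => [(C, 1)]
  | .v .d => [(D, 1)]
  | .v .e => [(E, 1)]
  | .v .f => [(F, 1)]
  | .m l r => mulL (evL A B C D E F l) (evL A B C D E F r)

/-- basis vector, as an element of the ring -/
noncomputable def bv (i : ℕ) : BB K := (Finsupp.single i 1 : V K)

theorem toV_evL (A B C D E F : ℕ) (t : Tr) :
    (toV K (evL A B C D E F t) : BB K)
      = ev (bv K A) (bv K B) (bv K C) (bv K D) (bv K E) (bv K F) t := by
  induction t with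
  | v x => cases x <;> simp [evL, ev, toV, bv]
  | m l r ihl ihr =>
    simp only [evL, ev]
    rw [← ihl, ← ihr]
    exact toV_mulL K _ _

def subL (l m : List (ℕ × ℕ)) : List (ℕ × ℕ) := app l (sc 2 m)

theorem toV_subL (h3 : (3 : K) = 0) (l m : List (ℕ × ℕ)) :
    toV K (subL l m) = toV K l - toV K m := by
  rw [subL, toV_app, toV_sc, Nat.cast_ofNat, two_smul_neg K h3, sub_eq_add_neg]

def syL (A B C D E F : ℕ) (t : Tr) : List (ℕ × ℕ) :=
  app
  (subL (subL (subL (evL A B C D E F t) (evL B A C D E F t))
      (subL (evL A B D C E F t) (evL B A D C E F t)))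
    (subL (subL (evL A B C D F E t) (evL B A C D F E t))
      (subL (evL A B D C F E t) (evL B A D C F E t))))
  (subL (subL (subL (evL A B E F C D t) (evL B A E F C D t))
      (subL (evL A B F E C D t) (evL B A F E C D t)))
    (subL (subL (evL A B E F D C t) (evL B A E F D C t))
      (subL (evL A B F E D C t) (evL B A F E D C t))))

theorem toV_syL (h3 : (3 : K) = 0) (A B C D E F : ℕ) (t : Tr) :
    (toV K (syL A B C D E F t) : BB K)
      = sy (bv K A) (bv K B) (bv K C) (bv K D) (bv K E) (bv K F) t := by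
  have e : toV K (syL A B C D E F t) =
      (((toV K (evL A B C D E F t) - toV K (evL B A C D E F t))
          - (toV K (evL A B D C E F t) - toV K (evL B A D C E F t)))
        - ((toV K (evL A B C D F E t) - toV K (evL B A C D F E t))
          - (toV K (evL A B D C F E t) - toV K (evL B A D C F E t))))
      + (((toV K (evL A B E F C D t) - toV K (evL B A E F C D t))
          - (toV K (evL A B F E C D t) - toV K (evL B A F E C D t)))
        - ((toV K (evL A B E F D C t) - toV K (evL B A E F D C t))
          - (toV K (evL A B F E D C t) - toV K (evL B A F E D C t)))) := by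
    simp only [syL, toV_app, toV_subL K h3]
  rw [e]
  unfold sy
  simp only [← toV_evL]
  rfl

def tvL (A B C D E F : ℕ) : List (ℕ × ℤ) → List (ℕ × ℕ)
  | [] => []
  | p :: l => app (sc (p.2 % 3).toNat (syL A B C D E F (dec p.1))) (tvL A B C D E F l)

theorem toV_tvL (h3 : (3 : K) = 0) (A B C D E F : ℕ) (l : List (ℕ × ℤ)) :
    (toV K (tvL A B C D E F l) : BB K) = (l.map fun p => p.2 • sy (bv K A) (bv K B) (bv K C)
      (bv K D) (bv K E) (bv K F) (dec p.1)).sum := by
  induction l with
  | nil => rfl
  | cons p l ih =>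
    simp only [tvL, List.map_cons, List.sum_cons]
    rw [← ih, ← toV_syL K h3]
    rw [toV_app, toV_sc]
    have hc : (((p.2 % 3).toNat : ℕ) : K) = ((p.2 : ℤ) : K) := by
      have h0 : 0 ≤ p.2 % 3 := Int.emod_nonneg _ (by norm_num)
      have h1 : (((p.2 % 3).toNat : ℕ) : ℤ) = p.2 % 3 := Int.toNat_of_nonneg h0
      have h2 : (((p.2 % 3).toNat : ℕ) : K) = ((p.2 % 3 : ℤ) : K) := by
        rw [← Int.cast_natCast (R := K), h1]
      rw [h2]
      have h4 : ((3 * (p.2 / 3) + p.2 % 3 : ℤ) : K) = ((p.2 : ℤ) : K) := by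
        rw [Int.mul_ediv_add_emod]
      rw [← h4]
      push_cast
      rw [h3, zero_mul, zero_add]
    rw [hc]
    have hz : ∀ (n : ℤ) (x : V K), (n : K) • x = n • x := fun n x => Int.cast_smul_eq_zsmul K n x
    rw [hz]
    rfl

def tL : List (ℕ × ℕ) := tvL 8 16 32 64 128 256 tgt

theorem tL_rest : zz 3 (keydrop 504 tL) = true := by decide +kernel

theorem tL_key : Nat.beq (keysum 504 tL % 3) 0 = false := by decide +kernel

theorem tv_ne (h3 : (3 : K) = 0) [Nontrivial K] :
    tv (bv K 8) (bv K 16) (bv K 32) (bv K 64) (bv K 128) (bv K 256) ≠ 0 := by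
  intro h
  unfold tv at h
  rw [← toV_tvL K h3] at h
  have h' : toV K tL = 0 := h
  rw [toV_keydrop K 504 tL, zz_spec K h3 _ _ tL_rest, add_zero, Finsupp.single_eq_zero] at h'
  have hk := tL_key
  have hm : keysum 504 tL % 3 ≠ 0 := by
    intro hh
    rw [hh] at hk
    simp at hk
  obtain ⟨n, hn⟩ : ∃ n, n = keysum 504 tL := ⟨_, rfl⟩
  rw [← hn] at h' hm
  have e : (n : K) = ((n % 3 : ℕ) : K) := by
    conv_lhs => rw [← Nat.div_add_mod n 3]
    push_cast
    rw [h3, zero_mul, zero_add]
  rw [e] at h'
  have h12 : n % 3 = 1 ∨ n % 3 = 2 := by omega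
  rcases h12 with h12 | h12
  · rw [h12] at h'
    simp at h'
  · rw [h12] at h'
    have : (1 : K) = 0 := by
      push_cast at h'
      linear_combination h3 - h'
    exact one_ne_zero this

end Pool.Agent.X272.Alt
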