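import Pool.Agent.X272.Alt.Core

namespace Pool.Agent.X272.Alt

inductive TT (α : Type) | e | l (a : α) | n (x y : TT α)

def dimN : ℕ := 898315579080481026865199695137570487375284256214885143112

def rows : TT (List (ℕ × List (ℕ × ℕ))) :=
  .n (.n (.n (.n (.n (.n (.n (.n (.n .e (.l [(8, [(0, 2)]), (16, [(0, 2)]), (24, [(1, 1)]), (32, [(0, 2)]), (41, [(2, 1)]), (49, [(2, 1)]), (56, [(2, 2)]), (64, [(0, 2)]), (73, [(2, 1)]), (81, [(2, 1)]), (88, [(2, 2)]), (96, [(1, 1)]), (104, [(1, 2)]), (105, [(2, 2)]), (106, [(1, 2)]), (112, [(1, 2)]), (113, [(2, 2)]), (114, [(1, 2)]), (121, [(0, 1)]), (128, [(0, 2)]), (136, [(1, 1)]), (137, [(0, 2), (1, 2)]), (144, [(1, 1)]), (145, [(0, 2), (1, 2)]), (153, [(0, 2), (1, 1)]), (160, [(1, 1)]), (170, [(0, 2), (2, 1)]), (171, [(1, 2)]), (178, [(0, 2), (2, 1)]), (179, [(1, 2)]), (186, [(0,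 1)]), (192, [(1, 1)]), (202, [(0, 2), (2, 1)]), (203, [(1, 2)]), (210, [(0, 2), (2, 1)]), (211, [(1, 2)]), (218, [(0, 1)]), (224, [(1, 2)]), (225, [(1, 2)]), (233, [(0, 2)]), (234, [(0, 1)]), (241, [(0, 2)]), (242, [(0, 1)]), (248, [(0, 1)])])) (.n (.l [(8, [(0, 2)]), (16, [(0, 2)]), (24, [(1, 1)]), (32, [(0, 2)]), (41, [(2, 1)]), (49, [(2, 1)]), (56, [(2, 2)]), (64, [(0, 2)]), (73, [(2, 1)]), (81, [(2, 1)]), (88, [(2, 2)]), (96, [(1, 1)]), (104, [(1, 2)]), (105, [(2, 2)]), (106, [(1, 2)]), (112, [(1, 2)]), (113, [(2, 2)]), (114, [(1, 2)]), (121, [(0, 1)]), (256, [(0, 1)]), (264, [(1, 2)]), (265, [(0, 1), (1, 1)]), (272, [(1, 2)]), (273, [(0, 1), (1, 1)]), (281, [(0, 1), (1, 2)]), (288, [(1, 2)]), (298, [(0, 1), (2, 2)]), (299, [(1, 1)]), (306, [(0, 1), (2, 2)]), (307, [(1, 1)]), (314, [(0, 2)]), (320, [(1, 2)]), (330,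 [(0, 1), (2, 2)]), (331, [(1, 1)]), (338, [(0, 1), (2, 2)]), (339, [(1,
    1)]), (346, [(0, 2)]), (352, [(1, 1)]), (353, [(1, 1)]), (361, [(0, 1)]), (362, [(0, 2)]), (369, [(0, 1)]), (370, [(0, 2)]), (376, [(0, 2)])]) (.l [(8, [(1, 1)]), (16, [(1, 1)]), (24, [(1, 1)]), (32, [(0, 2), (1, 1)]), (41, [(0, 1)]), (49, [(0, 1)]), (64, [(0, 2), (1, 1)]), (73, [(0, 1)]), (81, [(0, 1)]), (96, [(1, 2)]), (104, [(0, 2)]), (105, [(0, 1)]), (106, [(0, 1)]), (112, [(0, 2)]), (113, [(0, 1)]), (114, [(0, 1)]), (120, [(0, 2)])]))) (.n (.n (.l [(8, [(0, 2)]), (16, [(0, 2)]), (24, [(1, 1)]), (32, [(0, 2)]), (40, [(1, 1)]), (41, [(2, 1)]), (48, [(1, 1)]), (49, [(2, 1)]), (56, [(1, 1)]), (128, [(1, 1)]), (136, [(1, 2)]), (137, [(0, 1), (1, 1)]), (144, [(1, 2)]), (145, [(0, 1), (1, 1)]), (153, [(0, 1), (1, 2)]), (160, [(0, 1)]), (161, [(2,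 2)]), (169, [(2, 1)]), (170, [(1, 2)]), (171, [(1, 2)]), (177, [(2, 1)]), (178, [(1, 2)]), (179, [(1, 2)]), (184, [(0, 2)]), (186, [(0, 1)]), (256, [(1, 1)]), (264, [(1, 2)]), (265, [(0, 1), (1, 1)]), (272, [(1, 2)]), (273, [(0, 1), (1, 1)]), (281, [(0, 1), (1, 2)]), (288, [(0, 1)]), (289, [(2, 2)]), (297, [(2, 1)]), (298, [(1, 2)]), (299, [(1, 2)]), (305, [(2, 1)]), (306, [(1, 2)]), (307, [(1, 2)]), (312, [(0, 2)]), (314, [(0, 1)]), (384, [(0, 2)]), (392, [(0, 1), (2, 2)]), (400, [(0, 1), (2, 2)]), (409, [(0, 1)]), (417, [(1, 2)]), (425, [(0, 1)]), (426, [(0, 2)]), (433, [(0, 1)]), (434, [(0, 2)]), (440, [(0, 2)])]) (.l [(8, [(0, 1)]), (16, [(0, 1)]), (24, [(0, 1)]), (32, [(0, 1), (1, 1), (2, 2)]), (41, [(0, 1)]), (49, [(0, 1)]),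
    (56, [(0, 2)]), (57, [(0, 1)]), (128, [(0, 1)]), (136, [(2, 2)]), (137, [(2, 2)]), (144, [(2, 2)]), (145, [(2, 2)]), (160, [(0, 2)]), (168, [(0, 1)]), (169, [(0, 1)]), (170, [(0, 1)]), (171, [(0, 1)]), (176, [(0, 1)]), (177, [(0, 1)]), (178, [(0, 1)]), (179, [(0, 1)]), (184, [(0, 2)]), (185, [(0, 2)])])) (.n (.l [(8, [(0, 1)]), (16, [(0, 1)]), (24, [(0, 1)]), (32, [(0, 1), (1, 1), (2, 2)]), (41, [(0, 1)]), (49, [(0, 1)]), (56, [(0, 2)]), (57, [(0, 1)]), (256, [(0, 2)]), (264, [(2, 1)]), (265, [(2, 1)]), (272, [(2, 1)]), (273, [(2, 1)]), (288, [(0, 1)]), (296, [(0, 2)]), (297, [(0, 2)]), (298, [(0, 2)]), (299, [(0, 2)]), (304, [(0, 2)]), (305, [(0, 2)]), (306, [(0, 2)]), (307, [(0, 2)]), (312, [(0, 1)]), (313, [(0, 1)])]) (.l [(8, [(2, 2)]), (16, [(2, 2)]), (24, [(0, 2)]), (32, [(0, 2), (1, 1)]), (40, [(0, 2)]), (41,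 [(0, 1)]), (48, [(0, 2)]), (49, [(0, 1)]), (56, [(0, 2)]), (57, [(0, 1)])])))) (.n (.n (.n (.l [(8, [(0, 2)]), (16, [(0, 2)]), (24, [(1, 1)]), (64, [(0, 1)]), (72, [(1, 2)]), (73, [(2, 2)]), (80, [(1, 2)]), (81, [(2, 2)]), (88, [(1, 2)]), (128, [(1, 1)]), (136, [(1, 2)]), (137, [(0, 1), (1, 1)]), (144, [(1, 2)]), (145, [(0, 1), (1, 1)]), (153, [(0, 1), (1, 2)]), (192, [(0, 2)]), (193, [(2, 1)]), (201, [(2, 2)]), (202, [(1, 1)]), (203, [(1, 1)]), (209, [(2, 2)]), (210, [(1, 1)]), (211, [(1, 1)]), (216, [(0, 1)]), (218, [(0, 2)]), (256, [(1, 1)]), (264, [(1, 2)]), (265, [(0, 1), (1, 1)]), (272, [(1, 2)]), (273, [(0, 1), (1, 1)]), (281, [(0, 1), (1, 2)]), (320,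
    [(0, 2)]), (321, [(2, 1)]), (329, [(2, 2)]), (330, [(1, 1)]), (331, [(1, 1)]), (337, [(2, 2)]), (338, [(1, 1)]), (339, [(1, 1)]), (344, [(0, 1)]), (346, [(0, 2)]), (384, [(0, 2)]), (392, [(0, 1), (2, 2)]), (400, [(0, 1), (2, 2)]), (409, [(0, 1)]), (449, [(1, 1)]), (457, [(0, 2)]), (458, [(0, 1)]), (465, [(0, 2)]), (466, [(0, 1)]), (472, [(0, 1)])]) (.l [(8, [(0, 1)]), (16, [(0, 1)]), (24, [(0, 1)]), (64, [(0, 2), (1, 2), (2, 1)]), (73, [(0, 2)]), (81, [(0, 2)]), (88, [(0, 1)]), (89, [(0, 2)]), (128, [(0, 1)]), (136, [(2, 2)]), (137, [(2, 2)]), (144, [(2, 2)]), (145, [(2, 2)]), (192, [(0, 1)]), (200, [(0, 2)]), (201, [(0, 2)]), (202, [(0, 2)]), (203, [(0, 2)]), (208, [(0, 2)]), (209, [(0, 2)]), (210, [(0, 2)]), (211, [(0, 2)]), (216, [(0, 1)]), (217, [(0, 1)])])) (.n (.l [(8, [(0, 1)]), (16, [(0, 1)]), (24, [(0, 1)]),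 (64, [(0, 2), (1, 2), (2, 1)]), (73, [(0, 2)]), (81, [(0, 2)]), (88, [(0, 1)]), (89, [(0, 2)]), (256, [(0, 2)]), (264, [(2, 1)]), (265, [(2, 1)]), (272, [(2, 1)]), (273, [(2, 1)]), (320, [(0, 2)]), (328, [(0, 1)]), (329, [(0, 1)]), (330, [(0, 1)]), (331, [(0, 1)]), (336, [(0, 1)]), (337, [(0, 1)]), (338, [(0, 1)]), (339, [(0, 1)]), (344, [(0, 2)]), (345, [(0, 2)])]) (.l [(8, [(2, 2)]), (16, [(2, 2)]), (24, [(0, 2)]), (64, [(0, 1), (1, 2)]), (72, [(0, 1)]), (73, [(0, 2)]), (80, [(0, 1)]), (81, [(0, 2)]), (88, [(0, 1)]), (89, [(0, 2)])]))) (.n (.n (.l [(8, [(2, 2)]), (16, [(2, 2)]), (24, [(0, 1)]), (128, [(0, 1)]), (136, [(0, 1)]), (137, [(0, 1)]), (144, [(0,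
    1)]), (145, [(0, 1)]), (152, [(0, 2)]), (153, [(0, 2)]), (256, [(0, 1)]), (264, [(0, 1)]), (265, [(0, 1)]), (272, [(0, 1)]), (273, [(0, 1)]), (280, [(0, 2)]), (281, [(0, 2)]), (384, [(0, 1)]), (392, [(0, 1)]), (393, [(0, 1)]), (400, [(0, 1)]), (401, [(0, 1)]), (408, [(0, 1)]), (409, [(0, 1)])]) (.l [(8, [(0, 2), (1, 1)]), (16, [(0, 2), (1, 1)]), (128, [(0, 2), (1, 2)]), (152, [(0, 2)]), (153, [(0, 2)])])) (.n (.l [(8, [(0, 2), (1, 1)]), (16, [(0, 2), (1, 1)]), (256, [(0, 1), (1, 1)]), (280, [(0, 1)]), (281, [(0, 1)])]) (.l [(8, [(0, 2)]), (16, [(0, 2)]), (24, [(0, 1)])]))))) (.n (.n (.n (.n (.l [(8, [(0, 2)]), (32, [(1, 1)]), (41, [(0, 2), (1, 1)]), (64, [(1, 1)]), (73, [(0, 2), (1, 1)]), (96, [(0, 1), (1, 1), (2, 1)]), (104, [(1, 2)]), (106, [(1, 2)]), (128, [(1, 1)]), (136, [(0, 1), (1, 1)]), (137, [(0, 2)]), (160,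 [(3, 1)]), (170, [(0, 2), (1, 1), (2, 1)]), (171, [(0, 1), (1, 2)]), (192, [(3, 1)]), (202, [(0, 2), (1, 1), (2, 1)]), (203, [(0, 1), (1, 2)]), (224, [(1, 2)]), (225, [(1, 2), (2, 2)]), (226, [(2, 2)]), (233, [(0, 2)]), (234, [(0, 2)]), (256, [(1, 1)]), (264, [(0, 1), (1, 1)]), (265, [(0, 2)]), (288, [(3, 1)]), (298, [(0, 2), (1, 1), (2, 1)]), (299, [(0, 1), (1, 2)]), (320, [(3, 1)]), (330, [(0, 2), (1, 1), (2, 1)]), (331, [(0, 1), (1, 2)]), (352, [(1, 2)]), (353, [(1, 2), (2, 2)]), (354, [(2, 2)]), (361, [(0, 2)]), (362, [(0, 2)]), (384, [(0, 1)]), (392, [(0, 2), (1, 1)]), (417, [(0, 2), (1, 2), (2, 1)]), (425, [(0, 1)]), (449, [(0, 2), (1, 2), (2, 1)]),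
    (457, [(0, 1)]), (481, [(0, 1)]), (488, [(0, 2)])]) (.l [(8, [(1, 1)]), (32, [(0, 2), (2, 2)]), (41, [(0, 2), (2, 2)]), (64, [(0, 2), (2, 2)]), (73, [(0, 2), (2, 2)]), (96, [(1, 1), (2, 1)]), (104, [(0, 1)]), (106, [(0, 2)]), (128, [(0, 1), (1, 1)]), (136, [(0, 2)]), (137, [(0, 1), (1, 1)]), (160, [(1, 1), (2, 1)]), (170, [(0, 1)]), (171, [(0, 2)]), (192, [(1, 1), (2, 1)]), (202, [(0, 1)]), (203, [(0, 2)]), (224, [(0, 1)]), (225, [(0, 1)]), (226, [(0, 1)]), (232, [(0, 1)]), (234, [(0, 1)])])) (.n (.l [(8, [(1, 1)]), (32, [(0, 2), (2, 2)]), (41, [(0, 2), (2, 2)]), (64, [(0, 2), (2, 2)]), (73, [(0, 2), (2, 2)]), (96, [(1, 1), (2, 1)]), (104, [(0, 1)]), (106, [(0, 2)]), (256, [(0, 2), (1, 2)]), (264, [(0, 1)]), (265, [(0, 2), (1, 2)]), (288, [(1, 2), (2, 2)]), (298, [(0, 2)]), (299, [(0, 1)]), (320, [(1, 2), (2, 2)]),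 (330, [(0, 2)]), (331, [(0, 1)]), (352, [(0, 2)]), (353, [(0, 2)]), (354, [(0, 2)]), (360, [(0, 2)]), (362, [(0, 2)])]) (.l [(8, [(0, 2), (1, 2)]), (32, [(0, 2), (1, 2)]), (41, [(0, 2)]), (64, [(0, 2), (1, 2)]), (73, [(0, 2)]), (96, [(0, 1)]), (104, [(0, 2)]), (105, [(0, 2)]), (106, [(0, 1)])]))) (.n (.n (.l [(8, [(1, 2)]), (32, [(1, 1)]), (41, [(0, 2), (1, 2)]), (128, [(1, 2)]), (136, [(1, 1)]), (137, [(0, 1)]), (160, [(0, 2), (1, 2)]), (161, [(2, 2)]), (168, [(0, 2)]), (170, [(0, 2)]), (171, [(0, 2)]), (256, [(1, 2)]), (264, [(1, 1)]), (265, [(0, 1)]), (288, [(0, 2), (1, 2)]), (289, [(2, 2)]), (296, [(0, 2)]), (298, [(0, 2)]), (299, [(0, 2)]), (384, [(0, 2),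
    (2, 2)]), (392, [(0, 2)]), (416, [(0, 2)]), (417, [(0, 1)]), (424, [(0, 2)]), (425, [(0, 2)]), (426, [(0, 1)])]) (.l [(8, [(0, 1)]), (32, [(0, 2), (1, 2)]), (40, [(0, 1)]), (41, [(0, 2)]), (128, [(2, 1)]), (136, [(0, 1)]), (137, [(0, 1)]), (160, [(0, 1)]), (161, [(0, 2)]), (168, [(0, 1)]), (169, [(0, 1)]), (170, [(0, 1)]), (171, [(0, 1)])])) (.n (.l [(8, [(0, 1)]), (32, [(0, 2), (1, 2)]), (40, [(0, 1)]), (41, [(0, 2)]), (256, [(2, 2)]), (264, [(0, 2)]), (265, [(0, 2)]), (288, [(0, 2)]), (289, [(0, 1)]), (296, [(0, 2)]), (297, [(0, 2)]), (298, [(0, 2)]), (299, [(0, 2)])]) (.l [(8, [(0, 1)]), (32, [(0, 2)]), (40, [(0, 1)]), (41, [(0, 1)])])))) (.n (.n (.n (.l [(8, [(1, 2)]), (64, [(1, 2)]), (73, [(0, 1), (1, 1)]), (128, [(1, 2)]), (136, [(1, 1)]), (137, [(0, 1)]), (192, [(0, 1), (1, 1)]), (193, [(2, 1)]), (200, [(0, 1)]),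 (202, [(0, 1)]), (203, [(0, 1)]), (256, [(1, 2)]), (264, [(1, 1)]), (265, [(0, 1)]), (320, [(0, 1), (1, 1)]), (321, [(2, 1)]), (328, [(0, 1)]), (330, [(0, 1)]), (331, [(0, 1)]), (384, [(0, 2), (2, 2)]), (392, [(0, 2)]), (448, [(0, 1)]), (449, [(0, 2)]), (456, [(0, 1)]), (457, [(0, 1)]), (458, [(0, 2)])]) (.l [(8, [(0, 1)]), (64, [(0, 1), (1, 1)]), (72, [(0, 2)]), (73, [(0, 1)]), (128, [(2, 1)]), (136, [(0, 1)]), (137, [(0, 1)]), (192, [(0, 2)]), (193, [(0, 1)]), (200, [(0, 2)]), (201, [(0, 2)]), (202, [(0, 2)]), (203, [(0, 2)])])) (.n (.l [(8, [(0, 1)]), (64, [(0, 1), (1, 1)]), (72, [(0, 2)]), (73, [(0, 1)]), (256, [(2, 2)]), (264, [(0, 2)]), (265, [(0,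
    2)]), (320, [(0, 1)]), (321, [(0, 2)]), (328, [(0, 1)]), (329, [(0, 1)]), (330, [(0, 1)]), (331, [(0, 1)])]) (.l [(8, [(0, 1)]), (64, [(0, 1)]), (72, [(0, 2)]), (73, [(0, 2)])]))) (.n (.n (.l [(8, [(0, 2), (1, 1)]), (128, [(0, 1), (1, 2)]), (136, [(0, 1)]), (137, [(0, 1)]), (256, [(0, 1), (1, 2)]), (264, [(0, 1)]), (265, [(0, 1)]), (384, [(0, 1)]), (392, [(0, 2)]), (393, [(0, 2)])]) (.l [(8, [(0, 1)]), (128, [(0, 1)]), (136, [(0, 2)]), (137, [(0, 2)])])) (.n (.l [(8, [(0, 1)]), (256, [(0, 2)]), (264, [(0, 1)]), (265, [(0, 1)])]) .e))))) (.n (.n (.n (.n (.n (.l [(16, [(0, 1)]), (32, [(1, 1)]), (49, [(0, 1), (1, 2)]), (64, [(1, 1)]), (81, [(0, 1), (1, 2)]), (96, [(0, 1), (1, 1), (2, 1)]), (112, [(1, 1)]), (114, [(1, 1)]), (128, [(1, 1)]), (144, [(0, 2), (1, 2)]), (145, [(0, 1)]), (160, [(3, 1)]), (178, [(0, 1), (1, 2),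 (2, 2)]), (179, [(0, 2), (1, 1)]), (192, [(3, 1)]), (210, [(0, 1), (1, 2), (2, 2)]), (211, [(0, 2), (1, 1)]), (224, [(1, 2)]), (225, [(1, 2), (2, 2)]), (226, [(2, 2)]), (241, [(0, 1)]), (242, [(0, 1)]), (256, [(1, 1)]), (272, [(0, 2), (1, 2)]), (273, [(0, 1)]), (288, [(3, 1)]), (306, [(0, 1), (1, 2), (2, 2)]), (307, [(0, 2), (1, 1)]), (320, [(3, 1)]), (338, [(0, 1), (1, 2), (2, 2)]), (339, [(0, 2), (1, 1)]), (352, [(1, 2)]), (353, [(1, 2), (2, 2)]), (354, [(2, 2)]), (369, [(0, 1)]), (370, [(0, 1)]), (384, [(0, 1)]), (400, [(0, 1), (1, 2)]), (417, [(0, 2), (1, 2), (2, 1)]), (433, [(0, 2)]), (449, [(0, 2), (1, 2), (2, 1)]), (465, [(0, 2)]), (481, [(0, 1)]),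
    (496, [(0, 1)])]) (.l [(16, [(1, 2)]), (32, [(0, 2), (2, 2)]), (49, [(0, 1), (2, 1)]), (64, [(0, 2), (2, 2)]), (81, [(0, 1), (2, 1)]), (96, [(1, 1), (2, 1)]), (112, [(0, 2)]), (114, [(0, 1)]), (128, [(0, 1), (1, 1)]), (144, [(0, 1)]), (145, [(0, 2), (1, 2)]), (160, [(1, 1), (2, 1)]), (178, [(0, 2)]), (179, [(0, 1)]), (192, [(1, 1), (2, 1)]), (210, [(0, 2)]), (211, [(0, 1)]), (224, [(0, 1)]), (225, [(0, 1)]), (226, [(0, 1)]), (240, [(0, 2)]), (242, [(0, 2)])])) (.n (.l [(16, [(1, 2)]), (32, [(0, 2), (2, 2)]), (49, [(0, 1), (2, 1)]), (64, [(0, 2), (2, 2)]), (81, [(0, 1), (2, 1)]), (96, [(1, 1), (2, 1)]), (112, [(0, 2)]), (114, [(0, 1)]), (256, [(0, 2), (1, 2)]), (272, [(0, 2)]), (273, [(0, 1), (1, 1)]), (288, [(1, 2), (2, 2)]), (306, [(0, 1)]), (307, [(0, 2)]), (320, [(1, 2), (2, 2)]), (338, [(0, 1)]), (339, [(0, 2)]),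 (352, [(0, 2)]), (353, [(0, 2)]), (354, [(0, 2)]), (368, [(0, 1)]), (370, [(0, 1)])]) (.l [(16, [(0, 1), (1, 1)]), (32, [(0, 2), (1, 2)]), (49, [(0, 1)]), (64, [(0, 2), (1, 2)]), (81, [(0, 1)]), (96, [(0, 1)]), (112, [(0, 1)]), (113, [(0, 1)]), (114, [(0, 2)])]))) (.n (.n (.l [(16, [(1, 1)]), (32, [(1, 1)]), (49, [(0, 1), (1, 1)]), (128, [(1, 2)]), (144, [(1, 2)]), (145, [(0, 2)]), (160, [(0, 2), (1, 2)]), (161, [(2, 2)]), (176, [(0, 1)]), (178, [(0, 1)]), (179, [(0, 1)]), (256, [(1, 2)]), (272, [(1, 2)]), (273, [(0, 2)]), (288, [(0, 2), (1, 2)]), (289, [(2, 2)]), (304, [(0, 1)]), (306, [(0, 1)]), (307, [(0, 1)]), (384, [(0, 2), (2, 2)]), (400, [(0, 1)]),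
    (416, [(0, 2)]), (417, [(0, 1)]), (432, [(0, 1)]), (433, [(0, 1)]), (434, [(0, 2)])]) (.l [(16, [(0, 2)]), (32, [(0, 2), (1, 2)]), (48, [(0, 2)]), (49, [(0, 1)]), (128, [(2, 1)]), (144, [(0, 2)]), (145, [(0, 2)]), (160, [(0, 1)]), (161, [(0, 2)]), (176, [(0, 2)]), (177, [(0, 2)]), (178, [(0, 2)]), (179, [(0, 2)])])) (.n (.l [(16, [(0, 2)]), (32, [(0, 2), (1, 2)]), (48, [(0, 2)]), (49, [(0, 1)]), (256, [(2, 2)]), (272, [(0, 1)]), (273, [(0, 1)]), (288, [(0, 2)]), (289, [(0, 1)]), (304, [(0, 1)]), (305, [(0, 1)]), (306, [(0, 1)]), (307, [(0, 1)])]) (.l [(16, [(0, 2)]), (32, [(0, 2)]), (48, [(0, 2)]), (49, [(0, 2)])])))) (.n (.n (.n (.l [(16, [(1, 1)]), (64, [(1, 2)]), (81, [(0, 2), (1, 2)]), (128, [(1, 2)]), (144, [(1, 2)]), (145, [(0, 2)]), (192, [(0, 1), (1, 1)]), (193, [(2, 1)]), (208, [(0, 2)]), (210, [(0, 2)]), (211,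 [(0, 2)]), (256, [(1, 2)]), (272, [(1, 2)]), (273, [(0, 2)]), (320, [(0, 1), (1, 1)]), (321, [(2, 1)]), (336, [(0, 2)]), (338, [(0, 2)]), (339, [(0, 2)]), (384, [(0, 2), (2, 2)]), (400, [(0, 1)]), (448, [(0, 1)]), (449, [(0, 2)]), (464, [(0, 2)]), (465, [(0, 2)]), (466, [(0, 1)])]) (.l [(16, [(0, 2)]), (64, [(0, 1), (1, 1)]), (80, [(0, 1)]), (81, [(0, 2)]), (128, [(2, 1)]), (144, [(0, 2)]), (145, [(0, 2)]), (192, [(0, 2)]), (193, [(0, 1)]), (208, [(0, 1)]), (209, [(0, 1)]), (210, [(0, 1)]), (211, [(0, 1)])])) (.n (.l [(16, [(0, 2)]), (64, [(0, 1), (1, 1)]), (80, [(0, 1)]), (81, [(0, 2)]), (256, [(2, 2)]), (272, [(0, 1)]), (273, [(0, 1)]), (320, [(0, 1)]),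
    (321, [(0, 2)]), (336, [(0, 2)]), (337, [(0, 2)]), (338, [(0, 2)]), (339, [(0, 2)])]) (.l [(16, [(0, 2)]), (64, [(0, 1)]), (80, [(0, 1)]), (81, [(0, 1)])]))) (.n (.n (.l [(16, [(0, 1), (1, 2)]), (128, [(0, 1), (1, 2)]), (144, [(0, 2)]), (145, [(0, 2)]), (256, [(0, 1), (1, 2)]), (272, [(0, 2)]), (273, [(0, 2)]), (384, [(0, 1)]), (400, [(0, 1)]), (401, [(0, 1)])]) (.l [(16, [(0, 2)]), (128, [(0, 1)]), (144, [(0, 1)]), (145, [(0, 1)])])) (.n (.l [(16, [(0, 2)]), (256, [(0, 2)]), (272, [(0, 2)]), (273, [(0, 2)])]) .e)))) (.n (.n (.n (.n (.l [(32, [(0, 1)]), (64, [(0, 1)]), (96, [(1, 1)]), (128, [(0, 1)]), (160, [(1, 1)]), (192, [(1, 1)]), (224, [(0, 1)]), (225, [(0, 2)]), (226, [(0, 2)]), (256, [(0, 1)]), (288, [(1, 1)]), (320, [(1, 1)]), (352, [(0, 1)]), (353, [(0, 2)]), (354, [(0, 2)]), (384, [(1, 1)]), (480, [(0, 2)])])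 (.l [(32, [(0, 2), (1, 2)]), (64, [(0, 2), (1, 2)]), (96, [(0, 1)]), (128, [(0, 1)]), (160, [(0, 2)]), (192, [(0, 2)]), (224, [(0, 2)])])) (.n (.l [(32, [(0, 2), (1, 2)]), (64, [(0, 2), (1, 2)]), (96, [(0, 1)]), (256, [(0, 2)]), (288, [(0, 1)]), (320, [(0, 1)]), (352, [(0, 1)])]) (.l [(32, [(0, 1)]), (64, [(0, 1)]), (96, [(0, 2)])]))) (.n (.n (.l [(32, [(0, 2), (1, 2)]), (128, [(0, 1)]), (160, [(0, 2)]), (256, [(0, 1)]), (288, [(0, 2)]), (416, [(0, 2)]), (417, [(0, 1)])]) (.l [(32, [(0, 1)]), (128, [(0, 1)]), (160, [(0, 2)]), (161, [(0, 2)])])) (.n (.l [(32, [(0, 1)]), (256, [(0, 2)]), (288, [(0, 1)]), (289, [(0, 1)])]) .e))) (.n (.n (.n (.l [(64, [(0, 1),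
    (1, 1)]), (128, [(0, 1)]), (192, [(0, 1)]), (256, [(0, 1)]), (320, [(0, 1)]), (448, [(0, 1)]), (449, [(0, 2)])]) (.l [(64, [(0, 2)]), (128, [(0, 1)]), (192, [(0, 1)]), (193, [(0, 1)])])) (.n (.l [(64, [(0, 2)]), (256, [(0, 2)]), (320, [(0, 2)]), (321, [(0, 2)])]) .e)) (.n (.n (.l [(128, [(0, 1)]), (256, [(0, 1)]), (384, [(0, 1)])]) .e) .e))))) .e) (.n (.n (.n .e (.n (.n .e (.n (.n .e (.l [(8, [(0, 1)]), (32, [(0, 2), (1, 2)]), (40, [(0, 2)]), (128, [(2, 1)]), (136, [(0, 2)]), (137, [(0, 2)]), (161, [(0, 1)]), (168, [(0, 1)]), (169, [(0, 1)]), (170, [(0, 1)]), (171, [(0, 1)])])) (.n (.l [(8, [(0, 1)]), (32, [(0, 2), (1, 2)]), (40, [(0, 2)]), (256, [(2, 2)]), (264, [(0, 1)]), (265, [(0, 1)]), (289, [(0, 2)]), (296, [(0, 2)]), (297, [(0, 2)]), (298, [(0, 2)]), (299, [(0, 2)])]) (.l [(8, [(0, 2)]), (32, [(0, 1)]), (40,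 [(0, 2)]), (41, [(0, 2)])])))) (.n (.n (.n .e (.l [(8, [(0, 1)]), (64, [(0, 1), (1, 1)]), (72, [(0, 1)]), (128, [(2, 1)]), (136, [(0, 2)]), (137, [(0, 2)]), (193, [(0, 2)]), (200, [(0, 2)]), (201, [(0, 2)]), (202, [(0, 2)]), (203, [(0, 2)])])) (.n (.l [(8, [(0, 1)]), (64, [(0, 1), (1, 1)]), (72, [(0, 1)]), (256, [(2, 2)]), (264, [(0, 1)]), (265, [(0, 1)]), (321, [(0, 1)]), (328, [(0, 1)]), (329, [(0, 1)]), (330, [(0, 1)]), (331, [(0, 1)])]) (.l [(8, [(0, 2)]), (64, [(0, 2)]), (72, [(0, 1)]), (73, [(0, 1)])]))) (.n (.n (.l [(8, [(0, 1), (1, 2)]), (128, [(0, 2), (1, 1)]), (256, [(0, 2), (1, 1)]), (392, [(0, 1)]), (393, [(0, 1)])]) .e) .e)))) (.n (.n (.n .e (.n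
    (.n .e (.l [(16, [(0, 2)]), (32, [(0, 2), (1, 2)]), (48, [(0, 1)]), (128, [(2, 1)]), (144, [(0, 1)]), (145, [(0, 1)]), (161, [(0, 1)]), (176, [(0, 2)]), (177, [(0, 2)]), (178, [(0, 2)]), (179, [(0, 2)])])) (.n (.l [(16, [(0, 2)]), (32, [(0, 2), (1, 2)]), (48, [(0, 1)]), (256, [(2, 2)]), (272, [(0, 2)]), (273, [(0, 2)]), (289, [(0, 2)]), (304, [(0, 1)]), (305, [(0, 1)]), (306, [(0, 1)]), (307, [(0, 1)])]) (.l [(16, [(0, 1)]), (32, [(0, 1)]), (48, [(0, 1)]), (49, [(0, 1)])])))) (.n (.n (.n .e (.l [(16, [(0, 2)]), (64, [(0, 1), (1, 1)]), (80, [(0, 2)]), (128, [(2, 1)]), (144, [(0, 1)]), (145, [(0, 1)]), (193, [(0, 2)]), (208, [(0, 1)]), (209, [(0, 1)]), (210, [(0, 1)]), (211, [(0, 1)])])) (.n (.l [(16, [(0, 2)]), (64, [(0, 1), (1, 1)]), (80, [(0, 2)]), (256, [(2, 2)]), (272, [(0, 2)]), (273, [(0, 2)]), (321, [(0, 1)]),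 (336, [(0, 2)]), (337, [(0, 2)]), (338, [(0, 2)]), (339, [(0, 2)])]) (.l [(16, [(0, 1)]), (64, [(0, 2)]), (80, [(0, 2)]), (81, [(0, 2)])]))) (.n (.n (.l [(16, [(0, 2), (1, 1)]), (128, [(0, 2), (1, 1)]), (256, [(0, 2), (1, 1)]), (400, [(0, 2)]), (401, [(0, 2)])]) .e) .e))) (.n (.n .e (.n (.n .e (.l [(32, [(0, 1)]), (128, [(0, 1)]), (160, [(0, 2)]), (161, [(0, 2)])])) (.n (.l [(32, [(0, 1)]), (256, [(0, 2)]), (288, [(0, 1)]), (289, [(0, 1)])]) .e))) (.n (.n (.n .e (.l [(64, [(0, 2)]), (128, [(0, 1)]), (192, [(0, 1)]), (193, [(0, 1)])])) (.n (.l [(64, [(0, 2)]), (256, [(0, 2)]), (320, [(0, 2)]), (321, [(0, 2)])]) .e)) .e)))) .e)) (.n (.n (.n (.n (.n (.n .e (.n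
    (.n .e (.l [(8, [(0, 1), (1, 1)]), (16, [(0, 1), (1, 1)]), (24, [(0, 2), (1, 2)]), (32, [(2, 2)]), (40, [(2, 2)]), (41, [(0, 1), (1, 1)]), (48, [(2, 2)]), (49, [(0, 1), (1, 1)]), (56, [(0, 2)]), (57, [(0, 1)]), (128, [(0, 2)]), (136, [(2, 2)]), (137, [(0, 2)]), (144, [(2, 2)]), (145, [(0, 2)]), (153, [(0, 1)]), (160, [(0, 2), (1, 1)]), (168, [(0, 1)]), (169, [(0, 2)]), (170, [(0, 1)]), (171, [(0, 1)]), (176, [(0, 1)]), (177, [(0, 2)]), (178, [(0, 1)]), (179, [(0, 1)]), (184, [(0, 1)]), (185, [(0, 2)])])) (.n (.l [(8, [(0, 1), (1, 1)]), (16, [(0, 1), (1, 1)]), (24, [(0, 2), (1, 2)]), (32, [(2, 2)]), (40, [(2, 2)]), (41, [(0, 1), (1, 1)]), (48, [(2, 2)]), (49, [(0, 1), (1, 1)]), (56, [(0, 2)]), (57, [(0, 1)]), (256, [(0, 1)]), (264, [(2, 1)]), (265, [(0, 1)]), (272, [(2, 1)]), (273, [(0, 1)]), (281, [(0, 2)]), (288, [(0,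 1), (1, 2)]), (296, [(0, 2)]), (297, [(0, 1)]), (298, [(0, 2)]), (299, [(0, 2)]), (304, [(0, 2)]), (305, [(0, 1)]), (306, [(0, 2)]), (307, [(0, 2)]), (312, [(0, 2)]), (313, [(0, 1)])]) (.l [(8, [(2, 1)]), (16, [(2, 1)]), (24, [(0, 2)]), (32, [(0, 1), (1, 2)]), (40, [(0, 2)]), (48, [(0, 2)]), (56, [(0, 1)]), (57, [(0, 2)])])))) (.n (.n (.n .e (.l [(8, [(0, 1), (1, 1)]), (16, [(0, 1), (1, 1)]), (24, [(0, 2), (1, 2)]), (64, [(2, 1)]), (72, [(2, 1)]), (73, [(0, 2), (1, 2)]), (80, [(2, 1)]), (81, [(0, 2), (1, 2)]), (88, [(0, 1)]), (89, [(0, 2)]), (128, [(0, 2)]), (136, [(2, 2)]), (137, [(0, 2)]), (144, [(2, 2)]), (145, [(0, 2)]), (153, [(0, 1)]), (192, [(0, 1),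
    (1, 2)]), (200, [(0, 2)]), (201, [(0, 1)]), (202, [(0, 2)]), (203, [(0, 2)]), (208, [(0, 2)]), (209, [(0, 1)]), (210, [(0, 2)]), (211, [(0, 2)]), (216, [(0, 2)]), (217, [(0, 1)])])) (.n (.l [(8, [(0, 1), (1, 1)]), (16, [(0, 1), (1, 1)]), (24, [(0, 2), (1, 2)]), (64, [(2, 1)]), (72, [(2, 1)]), (73, [(0, 2), (1, 2)]), (80, [(2, 1)]), (81, [(0, 2), (1, 2)]), (88, [(0, 1)]), (89, [(0, 2)]), (256, [(0, 1)]), (264, [(2, 1)]), (265, [(0, 1)]), (272, [(2, 1)]), (273, [(0, 1)]), (281, [(0, 2)]), (320, [(0, 2), (1, 1)]), (328, [(0, 1)]), (329, [(0, 2)]), (330, [(0, 1)]), (331, [(0, 1)]), (336, [(0, 1)]), (337, [(0, 2)]), (338, [(0, 1)]), (339, [(0, 1)]), (344, [(0, 1)]), (345, [(0, 2)])]) (.l [(8, [(2, 1)]), (16, [(2, 1)]), (24, [(0, 2)]), (64, [(0, 2), (1, 1)]), (72, [(0, 1)]), (80, [(0, 1)]), (88, [(0, 2)]), (89, [(0, 1)])])))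 (.n (.n .e (.l [(24, [(0, 2)]), (136, [(0, 1)]), (137, [(0, 1)]), (144, [(0, 1)]), (145, [(0, 1)])])) (.n (.l [(24, [(0, 2)]), (264, [(0, 2)]), (265, [(0, 2)]), (272, [(0, 2)]), (273, [(0, 2)])]) (.l [(8, [(0, 2)]), (16, [(0, 2)]), (24, [(0, 1)])]))))) (.n (.n (.n (.n .e (.l [(8, [(0, 2), (1, 2)]), (32, [(0, 2), (3, 2)]), (41, [(0, 1), (1, 1), (2, 1)]), (64, [(0, 2), (3, 2)]), (73, [(0, 1), (1, 1), (2, 1)]), (96, [(1, 1), (2, 2)]), (104, [(0, 1)]), (105, [(0, 1)]), (106, [(0, 2)]), (128, [(0, 2)]), (136, [(0, 1), (1, 1)]), (137, [(0, 2)]), (160, [(0, 2), (1, 2), (2, 2)]), (170, [(0, 2)]), (171, [(0, 1)]), (192, [(0, 2), (1, 2), (2, 2)]), (202, [(0, 2)]),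
    (203, [(0, 1)]), (224, [(0, 1)]), (232, [(0, 1)]), (234, [(0, 2)])])) (.n (.l [(8, [(0, 2), (1, 2)]), (32, [(0, 2), (3, 2)]), (41, [(0, 1), (1, 1), (2, 1)]), (64, [(0, 2), (3, 2)]), (73, [(0, 1), (1, 1), (2, 1)]), (96, [(1, 1), (2, 2)]), (104, [(0, 1)]), (105, [(0, 1)]), (106, [(0, 2)]), (256, [(0, 1)]), (264, [(0, 2), (1, 2)]), (265, [(0, 1)]), (288, [(0, 1), (1, 1), (2, 1)]), (298, [(0, 1)]), (299, [(0, 2)]), (320, [(0, 1), (1, 1), (2, 1)]), (330, [(0, 1)]), (331, [(0, 2)]), (352, [(0, 2)]), (360, [(0, 2)]), (362, [(0, 1)])]) (.l [(8, [(0, 1)]), (32, [(0, 1), (2, 1)]), (41, [(0, 1)]), (64, [(0, 1), (2, 1)]), (73, [(0, 1)]), (96, [(0, 2)]), (104, [(0, 2)]), (106, [(0, 1)])]))) (.n (.n (.l [(8, [(1, 1)]), (32, [(0, 2)]), (41, [(0, 2)]), (128, [(0, 1)]), (136, [(0, 1)]), (137, [(0, 1)]), (160, [(0, 2)]), (168, [(0, 2)]),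 (169, [(0, 2)]), (170, [(0, 2)]), (171, [(0, 2)]), (256, [(0, 1)]), (264, [(0, 1)]), (265, [(0, 1)]), (288, [(0, 2)]), (296, [(0, 2)]), (297, [(0, 2)]), (298, [(0, 2)]), (299, [(0, 2)]), (384, [(2, 1)]), (416, [(0, 2)]), (417, [(0, 1)]), (424, [(0, 2)]), (426, [(0, 2)])]) (.l [(8, [(1, 1)]), (32, [(0, 2), (1, 2), (2, 1)]), (41, [(0, 2)]), (128, [(0, 2), (2, 2)]), (137, [(0, 2)]), (160, [(0, 1)]), (161, [(0, 1)]), (168, [(0, 1)]), (170, [(0, 2)])])) (.n (.l [(8, [(1, 1)]), (32, [(0, 2), (1, 2), (2, 1)]), (41, [(0, 2)]), (256, [(0, 1), (2, 1)]), (265, [(0, 1)]), (288, [(0, 2)]), (289, [(0, 2)]), (296, [(0, 2)]), (298, [(0, 1)])]) (.l [(8, [(0, 2)]), (32,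
    [(0, 1)]), (40, [(0, 2)]), (41, [(0, 2)])])))) (.n (.n (.n (.l [(8, [(1, 1)]), (64, [(0, 1)]), (73, [(0, 1)]), (128, [(0, 1)]), (136, [(0, 1)]), (137, [(0, 1)]), (192, [(0, 1)]), (200, [(0, 1)]), (201, [(0, 1)]), (202, [(0, 1)]), (203, [(0, 1)]), (256, [(0, 1)]), (264, [(0, 1)]), (265, [(0, 1)]), (320, [(0, 1)]), (328, [(0, 1)]), (329, [(0, 1)]), (330, [(0, 1)]), (331, [(0, 1)]), (384, [(2, 1)]), (448, [(0, 1)]), (449, [(0, 2)]), (456, [(0, 1)]), (458, [(0, 1)])]) (.l [(8, [(1, 1)]), (64, [(0, 1), (1, 1), (2, 2)]), (73, [(0, 1)]), (128, [(0, 2), (2, 2)]), (137, [(0, 2)]), (192, [(0, 2)]), (193, [(0, 2)]), (200, [(0, 2)]), (202, [(0, 1)])])) (.n (.l [(8, [(1, 1)]), (64, [(0, 1), (1, 1), (2, 2)]), (73, [(0, 1)]), (256, [(0, 1), (2, 1)]), (265, [(0, 1)]), (320, [(0, 1)]), (321, [(0, 1)]), (328, [(0, 1)]), (330, [(0, 2)])])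 (.l [(8, [(0, 2)]), (64, [(0, 2)]), (72, [(0, 1)]), (73, [(0, 1)])]))) (.n (.n .e (.l [(8, [(0, 2)]), (128, [(0, 2)]), (136, [(0, 1)]), (137, [(0, 1)])])) (.n (.l [(8, [(0, 2)]), (256, [(0, 1)]), (264, [(0, 2)]), (265, [(0, 2)])]) .e))))) (.n (.n (.n (.n (.n .e (.l [(16, [(0, 1), (1, 1)]), (32, [(0, 2), (3, 2)]), (49, [(0, 2), (1, 2), (2, 2)]), (64, [(0, 2), (3, 2)]), (81, [(0, 2), (1, 2), (2, 2)]), (96, [(1, 1), (2, 2)]), (112, [(0, 2)]), (113, [(0, 2)]), (114, [(0, 1)]), (128, [(0, 2)]), (144, [(0, 2), (1, 2)]), (145, [(0, 1)]), (160, [(0, 2), (1, 2), (2, 2)]), (178, [(0, 1)]), (179, [(0, 2)]), (192, [(0, 2), (1, 2), (2, 2)]), (210, [(0, 1)]), (211,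
    [(0, 2)]), (224, [(0, 1)]), (240, [(0, 2)]), (242, [(0, 1)])])) (.n (.l [(16, [(0, 1), (1, 1)]), (32, [(0, 2), (3, 2)]), (49, [(0, 2), (1, 2), (2, 2)]), (64, [(0, 2), (3, 2)]), (81, [(0, 2), (1, 2), (2, 2)]), (96, [(1, 1), (2, 2)]), (112, [(0, 2)]), (113, [(0, 2)]), (114, [(0, 1)]), (256, [(0, 1)]), (272, [(0, 1), (1, 1)]), (273, [(0, 2)]), (288, [(0, 1), (1, 1), (2, 1)]), (306, [(0, 2)]), (307, [(0, 1)]), (320, [(0, 1), (1, 1), (2, 1)]), (338, [(0, 2)]), (339, [(0, 1)]), (352, [(0, 2)]), (368, [(0, 1)]), (370, [(0, 2)])]) (.l [(16, [(0, 2)]), (32, [(0, 1), (2, 1)]), (49, [(0, 2)]), (64, [(0, 1), (2, 1)]), (81, [(0, 2)]), (96, [(0, 2)]), (112, [(0, 1)]), (114, [(0, 2)])]))) (.n (.n (.l [(16, [(1, 2)]), (32, [(0, 2)]), (49, [(0, 1)]), (128, [(0, 1)]), (144, [(0, 2)]), (145, [(0, 2)]), (160, [(0, 2)]), (176, [(0, 1)]),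 (177, [(0, 1)]), (178, [(0, 1)]), (179, [(0, 1)]), (256, [(0, 1)]), (272, [(0, 2)]), (273, [(0, 2)]), (288, [(0, 2)]), (304, [(0, 1)]), (305, [(0, 1)]), (306, [(0, 1)]), (307, [(0, 1)]), (384, [(2, 1)]), (416, [(0, 2)]), (417, [(0, 1)]), (432, [(0, 1)]), (434, [(0, 1)])]) (.l [(16, [(1, 2)]), (32, [(0, 2), (1, 2), (2, 1)]), (49, [(0, 1)]), (128, [(0, 2), (2, 2)]), (145, [(0, 1)]), (160, [(0, 1)]), (161, [(0, 1)]), (176, [(0, 2)]), (178, [(0, 1)])])) (.n (.l [(16, [(1, 2)]), (32, [(0, 2), (1, 2), (2, 1)]), (49, [(0, 1)]), (256, [(0, 1), (2, 1)]), (273, [(0, 2)]), (288, [(0, 2)]), (289, [(0, 2)]), (304, [(0, 1)]), (306, [(0, 2)])]) (.l [(16, [(0, 1)]), (32,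
    [(0, 1)]), (48, [(0, 1)]), (49, [(0, 1)])])))) (.n (.n (.n (.l [(16, [(1, 2)]), (64, [(0, 1)]), (81, [(0, 2)]), (128, [(0, 1)]), (144, [(0, 2)]), (145, [(0, 2)]), (192, [(0, 1)]), (208, [(0, 2)]), (209, [(0, 2)]), (210, [(0, 2)]), (211, [(0, 2)]), (256, [(0, 1)]), (272, [(0, 2)]), (273, [(0, 2)]), (320, [(0, 1)]), (336, [(0, 2)]), (337, [(0, 2)]), (338, [(0, 2)]), (339, [(0, 2)]), (384, [(2, 1)]), (448, [(0, 1)]), (449, [(0, 2)]), (464, [(0, 2)]), (466, [(0, 2)])]) (.l [(16, [(1, 2)]), (64, [(0, 1), (1, 1), (2, 2)]), (81, [(0, 2)]), (128, [(0, 2), (2, 2)]), (145, [(0, 1)]), (192, [(0, 2)]), (193, [(0, 2)]), (208, [(0, 1)]), (210, [(0, 2)])])) (.n (.l [(16, [(1, 2)]), (64, [(0, 1), (1, 1), (2, 2)]), (81, [(0, 2)]), (256, [(0, 1), (2, 1)]), (273, [(0, 2)]), (320, [(0, 1)]), (321, [(0, 1)]), (336, [(0, 2)]), (338, [(0,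 1)])]) (.l [(16, [(0, 1)]), (64, [(0, 2)]), (80, [(0, 2)]), (81, [(0, 2)])]))) (.n (.n .e (.l [(16, [(0, 1)]), (128, [(0, 2)]), (144, [(0, 2)]), (145, [(0, 2)])])) (.n (.l [(16, [(0, 1)]), (256, [(0, 1)]), (272, [(0, 1)]), (273, [(0, 1)])]) .e)))) (.n (.n (.n (.n .e (.l [(32, [(0, 1), (2, 2)]), (64, [(0, 1), (2, 2)]), (96, [(0, 2)]), (128, [(0, 2), (1, 2)]), (160, [(0, 1)]), (192, [(0, 1)]), (224, [(0, 2)]), (225, [(0, 2)]), (226, [(0, 2)])])) (.n (.l [(32, [(0, 1), (2, 2)]), (64, [(0, 1), (2, 2)]), (96, [(0, 2)]), (256, [(0, 1), (1, 1)]), (288, [(0, 2)]), (320, [(0, 2)]), (352, [(0, 1)]), (353, [(0, 1)]), (354, [(0, 1)])]) .e)) (.n (.n (.l [(32, [(0, 1), (1,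
    1)]), (128, [(0, 2)]), (160, [(0, 2)]), (161, [(0, 1)]), (256, [(0, 2)]), (288, [(0, 2)]), (289, [(0, 1)]), (384, [(0, 1)]), (416, [(0, 1)]), (417, [(0, 2)])]) (.l [(32, [(0, 2)]), (128, [(0, 2)]), (160, [(0, 1)]), (161, [(0, 1)])])) (.n (.l [(32, [(0, 2)]), (256, [(0, 1)]), (288, [(0, 2)]), (289, [(0, 2)])]) .e))) (.n (.n (.n (.l [(64, [(0, 2), (1, 2)]), (128, [(0, 2)]), (192, [(0, 1)]), (193, [(0, 2)]), (256, [(0, 2)]), (320, [(0, 1)]), (321, [(0, 2)]), (384, [(0, 1)]), (448, [(0, 2)]), (449, [(0, 1)])]) (.l [(64, [(0, 1)]), (128, [(0, 2)]), (192, [(0, 2)]), (193, [(0, 2)])])) (.n (.l [(64, [(0, 1)]), (256, [(0, 1)]), (320, [(0, 1)]), (321, [(0, 1)])]) .e)) (.n (.n (.l [(128, [(0, 2)]), (256, [(0, 2)]), (384, [(0, 2)])]) .e) .e))))) .e) (.n (.n (.n .e (.n (.n .e (.n (.n .e (.l [(8, [(0, 1)]), (32, [(0, 2), (1, 2)]),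 (40, [(0, 2)]), (128, [(2, 1)]), (136, [(0, 2)]), (137, [(0, 2)]), (161, [(0, 1)]), (168, [(0, 1)]), (169, [(0, 1)]), (170, [(0, 1)]), (171, [(0, 1)])])) (.n (.l [(8, [(0, 1)]), (32, [(0, 2), (1, 2)]), (40, [(0, 2)]), (256, [(2, 2)]), (264, [(0, 1)]), (265, [(0, 1)]), (289, [(0, 2)]), (296, [(0, 2)]), (297, [(0, 2)]), (298, [(0, 2)]), (299, [(0, 2)])]) .e))) (.n (.n (.n .e (.l [(8, [(0, 1)]), (64, [(0, 1), (1, 1)]), (72, [(0, 1)]), (128, [(2, 1)]), (136, [(0, 2)]), (137, [(0, 2)]), (193, [(0, 2)]), (200, [(0, 2)]), (201, [(0, 2)]), (202, [(0, 2)]), (203, [(0, 2)])])) (.n (.l [(8, [(0, 1)]), (64, [(0, 1), (1, 1)]), (72, [(0, 1)]), (256, [(2, 2)]), (264, [(0,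
    1)]), (265, [(0, 1)]), (321, [(0, 1)]), (328, [(0, 1)]), (329, [(0, 1)]), (330, [(0, 1)]), (331, [(0, 1)])]) .e)) .e))) (.n (.n (.n .e (.n (.n .e (.l [(16, [(0, 2)]), (32, [(0, 2), (1, 2)]), (48, [(0, 1)]), (128, [(2, 1)]), (144, [(0, 1)]), (145, [(0, 1)]), (161, [(0, 1)]), (176, [(0, 2)]), (177, [(0, 2)]), (178, [(0, 2)]), (179, [(0, 2)])])) (.n (.l [(16, [(0, 2)]), (32, [(0, 2), (1, 2)]), (48, [(0, 1)]), (256, [(2, 2)]), (272, [(0, 2)]), (273, [(0, 2)]), (289, [(0, 2)]), (304, [(0, 1)]), (305, [(0, 1)]), (306, [(0, 1)]), (307, [(0, 1)])]) .e))) (.n (.n (.n .e (.l [(16, [(0, 2)]), (64, [(0, 1), (1, 1)]), (80, [(0, 2)]), (128, [(2, 1)]), (144, [(0, 1)]), (145, [(0, 1)]), (193, [(0, 2)]), (208, [(0, 1)]), (209, [(0, 1)]), (210, [(0, 1)]), (211, [(0, 1)])])) (.n (.l [(16, [(0, 2)]), (64, [(0, 1), (1, 1)]), (80, [(0, 2)]),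 (256, [(2, 2)]), (272, [(0, 2)]), (273, [(0, 2)]), (321, [(0, 1)]), (336, [(0, 2)]), (337, [(0, 2)]), (338, [(0, 2)]), (339, [(0, 2)])]) .e)) .e)) .e)) .e))

end Pool.Agent.X272.Alt
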